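import Pool.Agent.Results.MP_fbe023_nt.LargeQuotients

set_option autoImplicit false

namespace Pool.Agent.Lib_MP_fbe023_h3

open Finset hiding val
open Pool.Agent.Results.MP_fbe023_nt.LargeQuotients

/-- all digits of `n` off `W` vanish -/
def Sup (g : ℕ → ℕ) (W : Set ℕ) (n : ℕ) : Prop := ∀ l, l ∉ W → dig g n l = 0

/-- a sum with bounded summands -/
lemma exists_le_sum {ι : Type*} [DecidableEq ι] (s : Finset ι) (M : ι → ℕ) :
    ∀ Y, Y ≤ ∑ t ∈ s, M t → ∃ y : ι → ℕ, (∀ t, y t ≤ M t) ∧ ∑ t ∈ s, y t = Y := by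
  induction s using Finset.induction_on with
  | empty =>
    intro Y hY
    refine ⟨fun _ => 0, fun _ => Nat.zero_le _, ?_⟩
    simp only [sum_empty] at hY ⊢
    omega
  | insert t s ht ih =>
    intro Y hY
    rw [sum_insert ht] at hY
    obtain ⟨y, hy, hs⟩ := ih (Y - min Y (M t)) (by omega)
    refine ⟨Function.update y t (min Y (M t)), ?_, ?_⟩
    · intro t'
      by_cases h : t' = t
      · subst h; simp
      · rw [Function.update_of_ne h]; exact hy t'
    · rw [sum_insert ht, Function.update_self,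
        sum_congr rfl (fun t' ht' => Function.update_of_ne (ne_of_mem_of_not_mem ht' ht) _ _), hs]
      omega

lemma sup_zero (g : ℕ → ℕ) (W : Set ℕ) : Sup g W 0 := fun l _ => by simp [dig]

section
variable {g : ℕ → ℕ} (hg : IsGAdic g)
include hg

/-- digits of a sum of a low and a high part -/
lemma dig_add_high {x y b : ℕ} (hx : x < g b) (hy : g b ∣ y) (l : ℕ) :
    dig g (x + y) l = dig g x l + dig g y l := by
  obtain ⟨z, rfl⟩ := hy
  rcases lt_or_ge l b with h | h
  · rw [mul_comm (g b) z, dig_add_lt hg h]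
    have h0 : dig g (z * g b) l = 0 := by
      have := dig_add_lt hg (s := 0) (y := z) h
      rw [zero_add] at this
      rw [this]; simp [dig]
    omega
  · rw [dig_eq_zero_of_le hg hx h, zero_add]
    unfold dig
    obtain ⟨L, hL⟩ := g_dvd hg h
    have hgb := gpos hg b
    rw [hL, ← Nat.div_div_eq_div_mul, ← Nat.div_div_eq_div_mul, Nat.mul_div_cancel_left _ hgb,
      Nat.add_mul_div_left _ _ hgb, Nat.div_eq_of_lt hx, zero_add]

lemma sup_add {W : Set ℕ} {x y b : ℕ} (hx : x < g b) (hy : g b ∣ y) (h1 : Sup g W x)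
    (h2 : Sup g W y) : Sup g W (x + y) := by
  intro l hl
  rw [dig_add_high hg hx hy, h1 l hl, h2 l hl]

lemma sup_single {W : Set ℕ} {k x : ℕ} (hk : k ∈ W) (hx : x < D g k) : Sup g W (x * g k) := by
  intro l hl
  rcases lt_trichotomy l k with h | h | h
  · have := dig_add_lt hg (s := 0) (y := x) h
    rw [zero_add] at this
    rw [this]; simp [dig]
  · exact absurd (h ▸ hk) hl
  · apply dig_eq_zero_of_le hg (j := k + 1) _ h
    rw [gsucc hg k]
    exact Nat.mul_lt_mul_of_pos_right hx (gpos hg k)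

lemma sup_mod {W : Set ℕ} {n : ℕ} (h : Sup g W n) (b : ℕ) : Sup g W (n % g b) := by
  intro l hl
  rcases lt_or_ge l b with h1 | h1
  · rw [dig_mod hg h1]; exact h l hl
  · exact dig_eq_zero_of_le hg (Nat.mod_lt _ (gpos hg b)) h1

lemma dig_high (n b l : ℕ) : dig g n l = dig g (n % g b) l + dig g (n - n % g b) l := by
  have h1 : g b ∣ n - n % g b := Nat.dvd_sub_mod n
  have h2 := dig_add_high hg (Nat.mod_lt n (gpos hg b)) h1 l
  have h3 : n % g b + (n - n % g b) = n := by
    have := Nat.mod_le n (g b)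
    omega
  rwa [h3] at h2

lemma sup_high {W : Set ℕ} {n : ℕ} (h : Sup g W n) (b : ℕ) : Sup g W (n - n % g b) := by
  intro l hl
  have h1 := dig_high hg n b l
  rw [h l hl] at h1
  omega

/-- the representation lemma -/
lemma rep_exists {h : ℕ} (W : Fin h → Set ℕ) (J : ℕ) :
    ∀ m, m ≤ ∑ t, wt g (W t) J → (∀ j, j ≤ J → m % g j ≤ ∑ t, wt g (W t) j) →
      ∃ f : Fin h → ℕ, (∀ t, Sup g (W t) (f t)) ∧ (∀ t, f t < g J) ∧ ∑ t, f t = m := by
  classical
  induction J with
  | zero =>
    intro m hm _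
    have h0 : ∀ t, wt g (W t) 0 = 0 := fun t => by simp [wt, val]
    simp only [h0, sum_const_zero] at hm
    refine ⟨fun _ => 0, fun t => sup_zero g _, fun t => gpos hg 0, ?_⟩
    simp only [sum_const_zero]
    omega
  | succ J ih =>
    intro m hm hmod
    have hgJ := gpos hg J
    have hDJ := two_le_D hg J
    set M : Fin h → ℕ := fun t => if J ∈ W t then D g J - 1 else 0 with hM
    have hS : ∑ t, wt g (W t) (J + 1) = ∑ t, wt g (W t) J + (∑ t, M t) * g J := by
      rw [Finset.sum_mul, ← Finset.sum_add_distrib]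
      exact sum_congr rfl fun t _ => wt_succ (W t) J
    obtain ⟨T, hT1, hT2, hT3⟩ : ∃ T, T ≤ m / g J ∧ T ≤ ∑ t, M t ∧
        m - T * g J ≤ ∑ t, wt g (W t) J := by
      rcases le_total (m / g J) (∑ t, M t) with h1 | h1
      · refine ⟨m / g J, le_rfl, h1, ?_⟩
        have e1 := hmod J (by omega)
        have e2 := Nat.div_add_mod m (g J)
        rw [mul_comm] at e2
        omega
      · refine ⟨∑ t, M t, h1, le_rfl, ?_⟩
        omega
    have hTm : T * g J ≤ m :=
      (Nat.mul_le_mul_right _ hT1).trans (Nat.div_mul_le_self _ _)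
    obtain ⟨f, hf1, hf2, hf3⟩ := ih (m - T * g J) hT3 (by
      intro j hj
      have e1 : (m - T * g J) % g j = m % g j := by
        have e2 : (m - T * g J + T * g J) % g j = (m - T * g J) % g j := by
          rw [Nat.add_mod, (Nat.mod_eq_zero_of_dvd ((g_dvd hg hj).mul_left _) :
            T * g J % g j = 0), add_zero, Nat.mod_mod]
        rw [Nat.sub_add_cancel hTm] at e2
        exact e2.symm
      rw [e1]
      exact hmod j (by omega))
    obtain ⟨y, hy1, hy2⟩ := exists_le_sum univ M T hT2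
    have hyD : ∀ t, y t ≤ D g J - 1 := by
      intro t
      have h1 := hy1 t
      simp only [hM] at h1
      split_ifs at h1 <;> omega
    refine ⟨fun t => f t + y t * g J, ?_, ?_, ?_⟩
    · intro t
      apply sup_add hg (hf2 t) (Dvd.intro_left _ rfl) (hf1 t)
      by_cases hJt : J ∈ W t
      · exact sup_single hg hJt (by have := hyD t; omega)
      · have h1 := hy1 t
        simp only [hM, if_neg hJt] at h1
        have h2 : y t = 0 := by omega
        rw [h2, zero_mul]
        exact sup_zero g _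
    · intro t
      have h1 := hf2 t
      have h2 : y t * g J ≤ (D g J - 1) * g J := Nat.mul_le_mul_right _ (hyD t)
      have h3 : (D g J - 1) * g J + g J = D g J * g J := by
        obtain ⟨e, he⟩ : ∃ e, D g J = e + 1 := ⟨D g J - 1, by omega⟩
        rw [he, Nat.add_sub_cancel, add_mul, one_mul]
      rw [gsucc hg J]
      show f t + y t * g J < D g J * g J
      omega
    · rw [sum_add_distrib, ← sum_mul, hy2, hf3]
      omega

/-- bounded three-term representation -/
lemma rep3b (P Q R : Set ℕ) (J m : ℕ) (hm : m ≤ wt g P J + wt g Q J + wt g R J)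
    (hmod : ∀ j, j ≤ J → m % g j ≤ wt g P j + wt g Q j + wt g R j) :
    ∃ x y z, Sup g P x ∧ Sup g Q y ∧ Sup g R z ∧ x < g J ∧ y < g J ∧ z < g J ∧
      m = x + y + z := by
  obtain ⟨f, hf1, hf2, hf3⟩ := rep_exists hg ![P, Q, R] J m
    (by simpa [Fin.sum_univ_three] using hm)
    (by simpa [Fin.sum_univ_three] using hmod)
  refine ⟨f 0, f 1, f 2, hf1 0, hf1 1, hf1 2, hf2 0, hf2 1, hf2 2, ?_⟩
  rw [← hf3, Fin.sum_univ_three]

/-- three-term representation -/
lemma rep3 (P Q R : Set ℕ) (n : ℕ)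
    (hmod : ∀ j, n % g j ≤ wt g P j + wt g Q j + wt g R j) :
    ∃ x y z, Sup g P x ∧ Sup g Q y ∧ Sup g R z ∧ n = x + y + z := by
  have hn : n < g (n + 1) := lt_of_lt_of_le (by omega) (le_g hg _)
  have h1 := hmod (n + 1)
  rw [Nat.mod_eq_of_lt hn] at h1
  obtain ⟨x, y, z, hx, hy, hz, -, -, -, h2⟩ := rep3b hg P Q R (n + 1) n h1 (fun j _ => hmod j)
  exact ⟨x, y, z, hx, hy, hz, h2⟩

lemma mod3_le {P Q R : Set ℕ} {x y z : ℕ} (hx : Sup g P x) (hy : Sup g Q y) (hz : Sup g R z)
    (j : ℕ) : (x + y + z) % g j ≤ wt g P j + wt g Q j + wt g R j := by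
  have h1 : (x + y + z) % g j = (x % g j + y % g j + z % g j) % g j := by
    rw [Nat.add_mod (x + y) z, Nat.add_mod x y, Nat.add_mod (x % g j + y % g j) (z % g j)]
    simp only [Nat.mod_mod]
  rw [h1]
  refine (Nat.mod_le _ _).trans ?_
  have := mod_le_wt hg hx j
  have := mod_le_wt hg hy j
  have := mod_le_wt hg hz j
  omega

lemma mod2_le {P Q : Set ℕ} {x y : ℕ} (hx : Sup g P x) (hy : Sup g Q y)
    (j : ℕ) : (x + y) % g j ≤ wt g P j + wt g Q j := by
  rw [Nat.add_mod]
  refine (Nat.mod_le _ _).trans ?_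
  have := mod_le_wt hg hx j
  have := mod_le_wt hg hy j
  omega

/-- no carries -/
lemma dig_add_of_lt {x y : ℕ} (h : ∀ j, x % g j + y % g j < g j) (l : ℕ) :
    dig g (x + y) l = dig g x l + dig g y l := by
  have h1 : ∀ j, (x + y) % g j = x % g j + y % g j := by
    intro j
    rw [Nat.add_mod]
    exact Nat.mod_eq_of_lt (h j)
  have h2 := mod_succ hg (x + y) l
  have h3 := mod_succ hg x l
  have h4 := mod_succ hg y l
  rw [h1, h1] at h2
  apply Nat.eq_of_mul_eq_mul_right (gpos hg l)
  rw [add_mul]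
  omega

lemma wt_compl (P : Set ℕ) (j : ℕ) : wt g P j + wt g Pᶜ j + 1 = g j := by
  induction j with
  | zero => simp [wt, val, hg.zero]
  | succ j ih =>
    by_cases h : j ∈ P
    · have h1 := wt_succ_mem hg h
      have h2 : wt g Pᶜ (j + 1) = wt g Pᶜ j := wt_succ_not_mem hg (by simpa using h)
      have := gpos hg j
      omega
    · have h1 : wt g Pᶜ (j + 1) + g j = wt g Pᶜ j + g (j + 1) := wt_succ_mem hg (by simpa using h)
      have h2 := wt_succ_not_mem hg h
      omega

lemma dig_add_compl {P : Set ℕ} {x y : ℕ} (hx : Sup g P x) (hy : Sup g Pᶜ y) (l : ℕ) :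
    dig g (x + y) l = dig g x l + dig g y l := by
  apply dig_add_of_lt hg
  intro j
  have h1 := mod_le_wt hg hx j
  have h2 := mod_le_wt hg hy j
  have h3 := wt_compl hg P j
  omega

/-- upper bound for numbers with the same `P`-digits as `a` -/
lemma ub {P : Set ℕ} {a n : ℕ} (ha : Sup g P a) (hd : ∀ l ∈ P, dig g n l = dig g a l) (j : ℕ) :
    n % g j + wt g P j + 1 ≤ a % g j + g j := by
  induction j with
  | zero => simp [wt, val, hg.zero, Nat.mod_one]
  | succ j ih =>
    have h1 := mod_succ hg n j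
    have h2 := mod_succ hg a j
    by_cases h : j ∈ P
    · have h3 := wt_succ_mem hg h
      rw [hd j h] at h1
      omega
    · have h3 := wt_succ_not_mem hg h
      have h4 := ha j h
      have h5 := dig_lt hg n j
      have h6 : dig g n j * g j ≤ (D g j - 1) * g j := Nat.mul_le_mul_right _ (by omega)
      have h7 : (D g j - 1) * g j + g j = D g j * g j := by
        obtain ⟨e, he⟩ : ∃ e, D g j = e + 1 := ⟨D g j - 1, by omega⟩
        rw [he, Nat.add_sub_cancel, add_mul, one_mul]
      rw [h4, zero_mul, add_zero] at h2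
      have h8 := gsucc hg j
      omega

end

/-- the digit function of the extreme number `a + ∑_{c ≠ i} w_c` -/
noncomputable def ext (g : ℕ → ℕ) (P : Set ℕ) (a l : ℕ) : ℕ :=
  haveI := Classical.dec (l ∈ P)
  if l ∈ P then dig g a l else D g l - 1

section
variable {g : ℕ → ℕ} (hg : IsGAdic g)
include hg

lemma ext_lt (P : Set ℕ) (a l : ℕ) : ext g P a l < D g l := by
  have h1 := dig_lt hg a l
  have h2 := two_le_D hg l
  unfold ext
  split_ifs <;> omega

omit hg in
lemma ext_mem {P : Set ℕ} {a l : ℕ} (h : l ∈ P) : ext g P a l = dig g a l := by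
  unfold ext
  rw [if_pos h]

omit hg in
lemma ext_not_mem {P : Set ℕ} {a l : ℕ} (h : l ∉ P) : ext g P a l = D g l - 1 := by
  unfold ext
  rw [if_neg h]

lemma val_ext {P : Set ℕ} {a : ℕ} (ha : Sup g P a) (m : ℕ) :
    val g (ext g P a) m + wt g P m + 1 = a % g m + g m := by
  induction m with
  | zero => simp [wt, val, hg.zero, Nat.mod_one]
  | succ m ih =>
    have h0 : val g (ext g P a) (m + 1) = val g (ext g P a) m + ext g P a m * g m := by
      simp [val, sum_range_succ]
    have h2 := mod_succ hg a m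
    by_cases h : m ∈ P
    · have h3 := wt_succ_mem hg h
      rw [ext_mem h] at h0
      omega
    · have h3 := wt_succ_not_mem hg h
      have h4 := ha m h
      have h5 := two_le_D hg m
      have h7 : (D g m - 1) * g m + g m = D g m * g m := by
        obtain ⟨e, he⟩ : ∃ e, D g m = e + 1 := ⟨D g m - 1, by omega⟩
        rw [he, Nat.add_sub_cancel, add_mul, one_mul]
      rw [ext_not_mem h] at h0
      rw [h4, zero_mul, add_zero] at h2
      have h8 := gsucc hg m
      omega

/-- carries in a sum of two elements of the same class -/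
lemma carry {P : Set ℕ} {y z l : ℕ} (hy : Sup g P y) (hz : Sup g P z) (hl : l ∉ P)
    (h : dig g (y + z) l ≠ 0) : dig g (y + z) l = 1 ∧ ∃ k, l = k + 1 ∧ k ∈ P := by
  have h1 := mod_succ hg (y + z) l
  have hy1 := mod_succ hg y l
  have hz1 := mod_succ hg z l
  rw [hy l hl, zero_mul, add_zero] at hy1
  rw [hz l hl, zero_mul, add_zero] at hz1
  have hgl := gpos hg l
  have hym := Nat.mod_lt y hgl
  have hzm := Nat.mod_lt z hgl
  have h2 : (y + z) % g (l + 1) = y % g l + z % g l := by
    rw [Nat.add_mod, hy1, hz1]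
    apply Nat.mod_eq_of_lt
    have h3 : 2 * g l ≤ D g l * g l := Nat.mul_le_mul_right _ (two_le_D hg l)
    rw [gsucc hg l]
    omega
  have hlt : dig g (y + z) l < 2 := by
    by_contra hcon
    have : 2 * g l ≤ dig g (y + z) l * g l := Nat.mul_le_mul_right _ (by omega)
    omega
  have hone : dig g (y + z) l = 1 := by omega
  refine ⟨hone, ?_⟩
  rw [hone, one_mul] at h1
  have hcar : g l ≤ y % g l + z % g l := by omega
  rcases Nat.eq_zero_or_pos l with h0 | h0
  · subst h0
    rw [hg.zero, Nat.mod_one, Nat.mod_one] at hcar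
    omega
  · obtain ⟨k, rfl⟩ : ∃ k, l = k + 1 := ⟨l - 1, by omega⟩
    refine ⟨k, rfl, ?_⟩
    by_contra hk
    have hyk := mod_succ hg y k
    have hzk := mod_succ hg z k
    rw [hy k hk, zero_mul, add_zero] at hyk
    rw [hz k hk, zero_mul, add_zero] at hzk
    have hgk := gpos hg k
    have h5 := Nat.mod_lt y hgk
    have h6 := Nat.mod_lt z hgk
    have h3 : 2 * g k ≤ D g k * g k := Nat.mul_le_mul_right _ (two_le_D hg k)
    have h4 := gsucc hg k
    omega

lemma le_mod_succ {m l : ℕ} (h : dig g m l ≠ 0) : g l ≤ m % g (l + 1) := by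
  have h1 := mod_succ hg m l
  have h2 : 1 * g l ≤ dig g m l * g l := Nat.mul_le_mul_right _ (by omega)
  omega

end

end Pool.Agent.Lib_MP_fbe023_h3
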