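import Pool.Agent.Lib_MP_fbe023_h3.Three

set_option autoImplicit false

namespace Pool.Agent.Lib_MP_fbe023_h3

open Finset hiding val
open Pool.Agent.Results.MP_fbe023_nt.LargeQuotients

/-- The exceptional elements `a` of `A_𝒢(W_i)` (three classes). -/
def Exceptional (g : ℕ → ℕ) (W : Fin 3 → Set ℕ) (i : Fin 3) (a : ℕ) : Prop :=
  (∀ v, dig g a v ≠ 0 → v + 1 ∉ W i ∧ g (v + 1) = 2 * g v ∧
    3 * wt g (W i) v < 3 * (a % g v) + g v) ∧
  {s | s ∈ W i ∧ s + 1 ∉ W i ∧ g (s + 1) = 2 * g s ∧ 3 * wt g (W i) s < 3 * a + g s ∧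
    (∀ q, q ≠ i → ∃ k, k + 1 ∈ W q ∧ (k = s ∨ dig g a k ≠ 0)) ∧
    ∀ c c', ¬ (c = i ∧ c' = i) →
      ∃ j, 2 * wt g (W c) j + wt g (W c') j < (3 * a + g (s + 1)) % g j}.Infinite

/-- all large `a + x`, `x` supported in `W p`, are good -/
def SplitEv (g : ℕ → ℕ) (W : Fin 3 → Set ℕ) (a : ℕ) (p : Fin 3) : Prop :=
  ∃ N, ∀ x, Sup g (W p) x → N ≤ a + x → Good (fullSet g W \ {a}) (a + x)

section
variable {g : ℕ → ℕ} (hg : IsGAdic g)
include hg

/-- the digits of `2 a` -/
lemma dig_double {a : ℕ} (hsp : ∀ v, dig g a v ≠ 0 → g (v + 1) = 2 * g v) :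
    dig g (2 * a) 0 = 0 ∧ ∀ v, dig g (2 * a) (v + 1) = dig g a v := by
  set x : ℕ → ℕ := fun l => if l = 0 then 0 else dig g a (l - 1) with hx
  have hD : ∀ v, dig g a v ≠ 0 → D g v = 2 := by
    intro v hv
    have e1 := hsp v hv
    rw [gsucc hg v] at e1
    exact Nat.eq_of_mul_eq_mul_right (gpos hg v) e1
  have hxD : ∀ j, x j < D g j := by
    intro j
    have e0 := two_le_D hg j
    simp only [hx]
    split_ifs with h
    · omega
    · have e1 := dig_lt hg a (j - 1)
      by_cases h0 : dig g a (j - 1) = 0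
      · omega
      · rw [hD _ h0] at e1
        omega
  have ha : a < g (a + 1) := lt_of_lt_of_le (by omega) (le_g hg _)
  have hval : 2 * a = val g x (a + 1 + 1) := by
    have e1 : 2 * a = 2 * val g (dig g a) (a + 1) := by rw [← eq_val hg ha]
    rw [e1]
    unfold val
    rw [sum_range_succ' (fun j => x j * g j) (a + 1), mul_sum]
    have e2 : x 0 * g 0 = 0 := by simp [hx]
    rw [e2, add_zero]
    apply sum_congr rfl
    intro l _
    have e3 : x (l + 1) = dig g a l := by simp [hx]
    show 2 * (dig g a l * g l) = x (l + 1) * g (l + 1)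
    rw [e3]
    by_cases h0 : dig g a l = 0
    · simp [h0]
    · rw [hsp l h0]; ring
  constructor
  · rw [hval, dig_val' hg hxD]
    simp [hx]
  · intro v
    rw [hval, dig_val' hg hxD]
    have e3 : x (v + 1) = dig g a v := by simp [hx]
    split_ifs with h
    · exact e3
    · exact (dig_eq_zero_of_le hg ha (by omega)).symm

lemma sup_one {P : Set ℕ} {k : ℕ} (hk : k ∈ P) : Sup g P (g k) := by
  have := sup_single hg hk (x := 1) (by have := two_le_D hg k; omega)
  rwa [one_mul] at this

lemma key_bound {P : Set ℕ} {a : ℕ} (hsa : Sup g P a)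
    (hsp : ∀ v, dig g a v ≠ 0 → v + 1 ∉ P ∧ g (v + 1) = 2 * g v) (J : ℕ) :
    3 * (a % g J) < 2 * g J ∧ (J ∈ P → 3 * (a % g J) < g J) := by
  induction J with
  | zero => rw [hg.zero, Nat.mod_one]; omega
  | succ J ih =>
    have e1 := mod_succ hg a J
    have e2 := gsucc hg J
    have e3 : 2 * g J ≤ D g J * g J := Nat.mul_le_mul_right _ (two_le_D hg J)
    have e4 := gpos hg J
    by_cases h0 : dig g a J = 0
    · rw [h0, zero_mul, add_zero] at e1
      constructor
      · omega
      · intro _; omega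
    · have hJ : J ∈ P := by
        by_contra hcon
        exact h0 (hsa J hcon)
      obtain ⟨h1, h2⟩ := hsp J h0
      have e5 := ih.2 hJ
      have e6 : D g J = 2 := by
        rw [e2] at h2
        exact Nat.eq_of_mul_eq_mul_right e4 h2
      have e7 := dig_lt hg a J
      have e8 : dig g a J = 1 := by omega
      rw [e8, one_mul] at e1
      constructor
      · omega
      · intro h; exact absurd h h1

lemma claim2 {P : Set ℕ} {a : ℕ} (hsa : Sup g P a)
    (hsp : ∀ v, dig g a v ≠ 0 → v + 1 ∉ P ∧ g (v + 1) = 2 * g v ∧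
      3 * wt g P v < 3 * (a % g v) + g v) {x y z : ℕ}
    (hx : Sup g P x) (hy : Sup g P y) (hz : Sup g P z) (J : ℕ) :
    x % g J + y % g J + z % g J = 3 * (a % g J) →
      x % g J = a % g J ∧ y % g J = a % g J ∧ z % g J = a % g J := by
  induction J with
  | zero => intro _; simp [hg.zero, Nat.mod_one]
  | succ J ih =>
    intro h
    have ex := mod_succ hg x J
    have ey := mod_succ hg y J
    have ez := mod_succ hg z J
    have ea := mod_succ hg a J
    have hgJ := gpos hg J
    by_cases hJ : J ∈ P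
    · have kb := (key_bound hg hsa (fun v hv => ⟨(hsp v hv).1, (hsp v hv).2.1⟩) J).2 hJ
      by_cases h0 : dig g a J = 0
      · rw [h0, zero_mul, add_zero] at ea
        have hx0 : dig g x J = 0 := by
          by_contra hc
          have : 1 * g J ≤ dig g x J * g J := Nat.mul_le_mul_right _ (by omega)
          omega
        have hy0 : dig g y J = 0 := by
          by_contra hc
          have : 1 * g J ≤ dig g y J * g J := Nat.mul_le_mul_right _ (by omega)
          omega
        have hz0 : dig g z J = 0 := by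
          by_contra hc
          have : 1 * g J ≤ dig g z J * g J := Nat.mul_le_mul_right _ (by omega)
          omega
        rw [hx0, zero_mul, add_zero] at ex
        rw [hy0, zero_mul, add_zero] at ey
        rw [hz0, zero_mul, add_zero] at ez
        have := ih (by omega)
        omega
      · obtain ⟨-, h2, h3⟩ := hsp J h0
        have e6 : D g J = 2 := by
          rw [gsucc hg J] at h2
          exact Nat.eq_of_mul_eq_mul_right hgJ h2
        have e7 := dig_lt hg a J
        have e8 : dig g a J = 1 := by omega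
        rw [e8, one_mul] at ea
        have bx := mod_le_wt hg hx J
        have bY := mod_le_wt hg hy J
        have bz := mod_le_wt hg hz J
        have dx : dig g x J = 0 ∨ dig g x J = 1 := by have := dig_lt hg x J; omega
        have dy : dig g y J = 0 ∨ dig g y J = 1 := by have := dig_lt hg y J; omega
        have dz : dig g z J = 0 ∨ dig g z J = 1 := by have := dig_lt hg z J; omega
        have hx1 : dig g x J * g J = g J := by
          rcases dx with h' | h' <;> rcases dy with h'' | h'' <;> rcases dz with h''' | h''' <;>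
            rw [h'] at ex ⊢ <;> rw [h''] at ey <;> rw [h'''] at ez <;>
            simp only [zero_mul, one_mul] at ex ey ez ⊢ <;> omega
        have hy1 : dig g y J * g J = g J := by
          rcases dx with h' | h' <;> rcases dy with h'' | h'' <;> rcases dz with h''' | h''' <;>
            rw [h'] at ex <;> rw [h''] at ey ⊢ <;> rw [h'''] at ez <;>
            simp only [zero_mul, one_mul] at ex ey ez ⊢ <;> omega
        have hz1 : dig g z J * g J = g J := by
          rcases dx with h' | h' <;> rcases dy with h'' | h'' <;> rcases dz with h''' | h''' <;>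
            rw [h'] at ex <;> rw [h''] at ey <;> rw [h'''] at ez ⊢ <;>
            simp only [zero_mul, one_mul] at ex ey ez ⊢ <;> omega
        have := ih (by omega)
        omega
    · rw [hx J hJ, zero_mul, add_zero] at ex
      rw [hy J hJ, zero_mul, add_zero] at ey
      rw [hz J hJ, zero_mul, add_zero] at ez
      rw [hsa J hJ, zero_mul, add_zero] at ea
      have := ih (by omega)
      omega

variable {W : Fin 3 → Set ℕ} (hW : IsPartition W)
include hW

variable {a : ℕ} {i : Fin 3} (ha : a ∈ AG g (W i))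
include ha

lemma good_special {s : ℕ} (has : a < g s) (hs : s ∈ W i)
    (hsplit : ∀ p, p ≠ i → ∀ x, Sup g (W p) x → 3 * a + g (s + 1) = a + x →
      Good (fullSet g W \ {a}) (3 * a + g (s + 1)))
    (hgs : g (s + 1) = 2 * g s) (hD : ∀ v, dig g a v ≠ 0 → g (v + 1) = 2 * g v)
    (hd : ∀ l ∈ W i, dig g (3 * a + g (s + 1)) l = dig g a l)
    (hn : ∀ j, (3 * a + g (s + 1)) % g j ≤ 3 * wt g (W i) j)
    (hmeet : ∀ q, q ≠ i → ∃ k, k ∈ W i ∧ k + 1 ∈ W q ∧
      dig g (3 * a + g (s + 1) - a) (k + 1) ≠ 0)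
    (hcond : 3 * a + g s ≤ 3 * wt g (W i) s ∨
      (∃ v, dig g a v ≠ 0 ∧ 3 * (a % g v) + g v ≤ 3 * wt g (W i) v) ∨
      ∃ c c', ¬ (c = i ∧ c' = i) ∧
        ∀ j, (3 * a + g (s + 1)) % g j ≤ 2 * wt g (W c) j + wt g (W c') j) :
    Good (fullSet g W \ {a}) (3 * a + g (s + 1)) := by
  have ha' := (mem_AG hg).1 ha
  have hsa : Sup g (W i) a := ha'.2
  have hgspos := gpos hg s
  have hdvd : ∀ j, j ≤ s → (3 * a + g (s + 1)) % g j = (3 * a) % g j := by
    intro j hj
    rw [Nat.add_mod, (Nat.mod_eq_zero_of_dvd (g_dvd hg (by omega)) : g (s + 1) % g j = 0),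
      add_zero, Nat.mod_mod]
  rcases hcond with hb | ⟨v, hv, hc⟩ | ⟨c, c', hcc, hU⟩
  · obtain ⟨x, y, z, hx, hy, hz, hxl, hyl, hzl, h⟩ :=
      rep3b hg (W i) (W i) (W i) s (3 * a + g s) (by omega) (by
        intro j hj
        have e1 : (3 * a + g s) % g j = (3 * a) % g j := by
          rw [Nat.add_mod, (Nat.mod_eq_zero_of_dvd (g_dvd hg hj) : g s % g j = 0),
            add_zero, Nat.mod_mod]
        rw [e1, ← hdvd j hj]
        have := hn j
        omega)
    have hup : ∀ r, Sup g (W i) r → r < g s → Sup g (W i) (r + g s) :=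
      fun r hr hrs => sup_add hg hrs dvd_rfl hr (sup_one hg hs)
    by_cases hxa : x = a
    · exact ⟨x + g s, y, z, mem_B hg (hup x hx hxl) (by omega), mem_B hg hy (by omega),
        mem_B hg hz (by omega), by omega⟩
    by_cases hya : y = a
    · exact ⟨x, y + g s, z, mem_B hg hx hxa, mem_B hg (hup y hy hyl) (by omega),
        mem_B hg hz (by omega), by omega⟩
    exact ⟨x, y, z + g s, mem_B hg hx hxa, mem_B hg hy hya,
        mem_B hg (hup z hz hzl) (by omega), by omega⟩
  · have hvi : v ∈ W i := by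
      by_contra hcon
      exact hv (hsa v hcon)
    have hvs : v < s := by
      by_contra hcon
      exact hv (dig_eq_zero_of_le hg has (by omega))
    have hgv := hD v hv
    have hgvpos := gpos hg v
    have hDv : D g v = 2 := by
      rw [gsucc hg v] at hgv
      exact Nat.eq_of_mul_eq_mul_right hgvpos hgv
    have hdv : dig g a v = 1 := by
      have := dig_lt hg a v
      omega
    obtain ⟨x, y, z, hx, hy, hz, hxl, hyl, hzl, h⟩ :=
      rep3b hg (W i) (W i) (W i) v (3 * (a % g v) + g v) (by omega) (by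
        intro j hj
        have e0 : 3 * (a % g v) + g v ≡ 3 * a + 0 [MOD g j] := by
          apply Nat.ModEq.add
          · exact Nat.ModEq.mul_left 3 ((Nat.mod_modEq a (g v)).of_dvd (g_dvd hg hj))
          · exact (Nat.modEq_zero_iff_dvd).2 (g_dvd hg hj)
        have e1 : (3 * (a % g v) + g v) % g j = (3 * a) % g j := by
          rw [add_zero] at e0
          exact e0
        rw [e1, ← hdvd j (by omega)]
        have := hn j
        omega)
    have hav := mod_succ hg a v
    rw [hdv, one_mul] at hav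
    set hi := a - a % g (v + 1) with hhi
    have hile : a % g (v + 1) ≤ a := Nat.mod_le _ _
    have hahi : a = a % g v + g v + hi := by omega
    have hisup : Sup g (W i) hi := sup_high hg hsa (v + 1)
    have hidvd : g (v + 1) ∣ hi := Nat.dvd_sub_mod a
    have K1 : Sup g (W i) (hi + g s) :=
      sup_add hg (by omega) dvd_rfl hisup (sup_one hg hs)
    have K1d : g (v + 1) ∣ hi + g s := dvd_add hidvd (g_dvd hg (by omega))
    have K2 : Sup g (W i) (g v + (hi + g s)) :=
      sup_add hg (by omega) K1d (sup_one hg hvi) K1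
    have hvd : g v ∣ g (v + 1) := hg.dvd v
    have K2d : g v ∣ g v + (hi + g s) := dvd_add dvd_rfl (hvd.trans K1d)
    have b1 := sup_add hg hxl K2d hx K2
    have b2 := sup_add hg hyl K2d hy K2
    have b3 := sup_add hg hzl (hvd.trans hidvd) hz hisup
    exact ⟨_, _, _, mem_B hg b1 (by omega), mem_B hg b2 (by omega), mem_B hg b3 (by omega),
      by omega⟩
  · by_cases hci : c = i
    · subst hci
      have hc' : c ≠ c' := fun h => hcc ⟨rfl, h.symm⟩
      exact good_S2 hg hW ha hc' (hsplit c' (Ne.symm hc')) hd hU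
    by_cases hci' : c' = i
    · subst hci'
      obtain ⟨q, hq1, hq2⟩ := third hci
      obtain ⟨k, hk1, hk2, hk3⟩ := hmeet q (Ne.symm hq2)
      obtain ⟨x, y, z, hx, hy, hz, h⟩ := rep3 hg (W c) (W c) (W c') (3 * a + g (s + 1))
        (fun j => by have := hU j; omega)
      refine ⟨x, y, z, mem_B hg hx ?_, mem_B hg hy ?_, mem_B hg hz ?_, h⟩
      · intro hxa
        rw [hxa] at hx
        exact not_sup hg hW ha hci hx
      · intro hya
        rw [hya] at hy
        exact not_sup hg hW ha hci hy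
      · intro hza
        have e1 : 3 * a + g (s + 1) - a = x + y := by omega
        rw [e1] at hk3
        obtain ⟨-, k', hk', hk''⟩ := carry hg hx hy (not_mem hW (Ne.symm hq1) hk2) hk3
        have : k = k' := by omega
        subst this
        exact not_mem hW hci hk'' hk1
    · exact good_S1 hg hW ha hci hci' hU

lemma splitEv_of_two (ha2 : 2 ≤ a) {p : Fin 3} (hp : p ≠ i) : SplitEv g W a p :=
  ⟨0, fun _ hx _ => good_split hg hW ha ha2 hp hx⟩

lemma suff_ii (hsp : ∀ p, p ≠ i → SplitEv g W a p)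
    (hU : ∀ j, a % g j + g j ≤ 2 * wt g (W i) j + wt g (W i) j + wt g (W i) j + 1)
    (hE : ¬ Exceptional g W i a) : IsAsymptoticBasis 3 (fullSet g W \ {a}) := by
  classical
  have ha' := (mem_AG hg).1 ha
  have hsa : Sup g (W i) a := ha'.2
  obtain ⟨N1, hN1⟩ : ∃ N1, ∀ p, p ≠ i → ∀ x, Sup g (W p) x → N1 ≤ a + x →
      Good (fullSet g W \ {a}) (a + x) := by
    obtain ⟨p, q, hp, hq, hpq⟩ := two_others i
    obtain ⟨Np, hNp⟩ := hsp p hp.symm
    obtain ⟨Nq, hNq⟩ := hsp q hq.symm
    refine ⟨Np + Nq, fun c hc x hx hle => ?_⟩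
    rcases cover3 hp hq hpq c with h | h | h
    · exact absurd h hc
    · subst h; exact hNp x hx (by omega)
    · subst h; exact hNq x hx (by omega)
  obtain ⟨M, haM, hN1M, hEM⟩ : ∃ M, a < g M ∧ N1 ≤ M ∧
      ((∀ v, dig g a v ≠ 0 → v + 1 ∉ W i ∧ g (v + 1) = 2 * g v ∧
        3 * wt g (W i) v < 3 * (a % g v) + g v) → ∀ s, M ≤ s →
        ¬ (s ∈ W i ∧ s + 1 ∉ W i ∧ g (s + 1) = 2 * g s ∧ 3 * wt g (W i) s < 3 * a + g s ∧
          (∀ q, q ≠ i → ∃ k, k + 1 ∈ W q ∧ (k = s ∨ dig g a k ≠ 0)) ∧
          ∀ c c', ¬ (c = i ∧ c' = i) →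
            ∃ j, 2 * wt g (W c) j + wt g (W c') j < (3 * a + g (s + 1)) % g j)) := by
    by_cases h1 : ∀ v, dig g a v ≠ 0 → v + 1 ∉ W i ∧ g (v + 1) = 2 * g v ∧
        3 * wt g (W i) v < 3 * (a % g v) + g v
    · have h2 : ¬ Set.Infinite {s | s ∈ W i ∧ s + 1 ∉ W i ∧ g (s + 1) = 2 * g s ∧
          3 * wt g (W i) s < 3 * a + g s ∧
          (∀ q, q ≠ i → ∃ k, k + 1 ∈ W q ∧ (k = s ∨ dig g a k ≠ 0)) ∧
          ∀ c c', ¬ (c = i ∧ c' = i) →
            ∃ j, 2 * wt g (W c) j + wt g (W c') j < (3 * a + g (s + 1)) % g j} :=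
        fun h => hE ⟨h1, h⟩
      rw [Set.not_infinite] at h2
      obtain ⟨B, hB⟩ := h2.bddAbove
      refine ⟨a + 1 + B + N1, lt_of_lt_of_le (by omega) (le_g hg _), by omega,
        fun _ s hs hcon => ?_⟩
      have := hB hcon
      omega
    · exact ⟨a + 1 + N1, lt_of_lt_of_le (by omega) (le_g hg _), by omega, fun h => absurd h h1⟩
  refine basis_of_good (N := g (M + 1)) fun n hnM => ?_
  by_cases hne : ∃ l ∈ W i, dig g n l ≠ dig g a l
  · obtain ⟨f, hf, h⟩ := rep_of_dig_ne hg hW ha hne
    exact ⟨f 0, f 1, f 2, hf 0, hf 1, hf 2, by rw [h, Fin.sum_univ_three]⟩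
  push Not at hne
  have hub := ub hg hsa hne
  have hn : ∀ j, n % g j ≤ 3 * wt g (W i) j := by
    intro j
    have := hub j
    have := hU j
    omega
  have hNn : N1 ≤ n := by
    have := le_g hg (M + 1)
    omega
  rcases good_D hg hW ha haM (fun p hp x hx he => by
      rw [he]; exact hN1 p hp x hx (by omega)) hne hn hnM with
    hG | ⟨hsp, s, hMs, hs, hs1, hgs, hns, hm⟩
  · exact hG
  · have has : a < g s := haM.trans_le (hg.mono.monotone hMs)
    subst hns
    refine good_special hg hW ha has hs (fun p hp x hx he => by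
        rw [he]; exact hN1 p hp x hx (by omega)) hgs (fun v hv => (hsp v hv).2) hne hn ?_ ?_
    · intro q hq
      obtain ⟨k, h1, h2, h3, -⟩ := hm q hq
      exact ⟨k, h1, h2, h3⟩
    · by_contra hcon
      push Not at hcon
      obtain ⟨hc1, hc2, hc3⟩ := hcon
      refine hEM (fun v hv => ⟨(hsp v hv).1, (hsp v hv).2, hc2 v hv⟩) s hMs
        ⟨hs, hs1, hgs, hc1, ?_, ?_⟩
      · intro q hq
        obtain ⟨k, -, h2, -, h4⟩ := hm q hq
        exact ⟨k, h2, h4⟩
      · intro c1 c2 h12
        exact hc3 c1 c2 (fun h => fun h' => h12 ⟨h, h'⟩)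

lemma suff_other {c c' : Fin 3} (hcc : ¬ (c = i ∧ c' = i))
    (hsp : c = i → SplitEv g W a c')
    (hU : ∀ j, a % g j + g j ≤ 2 * wt g (W c) j + wt g (W c') j + wt g (W i) j + 1) :
    IsAsymptoticBasis 3 (fullSet g W \ {a}) := by
  have ha' := (mem_AG hg).1 ha
  have hsa : Sup g (W i) a := ha'.2
  by_cases hci : c = i
  · obtain ⟨N, hN⟩ := hsp hci
    subst hci
    have hc' : c ≠ c' := fun h => hcc ⟨rfl, h.symm⟩
    refine basis_of_good (N := N) fun n hnN => ?_
    by_cases hne : ∃ l ∈ W c, dig g n l ≠ dig g a l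
    · obtain ⟨f, hf, h⟩ := rep_of_dig_ne hg hW ha hne
      exact ⟨f 0, f 1, f 2, hf 0, hf 1, hf 2, by rw [h, Fin.sum_univ_three]⟩
    push Not at hne
    have hub := ub hg hsa hne
    exact good_S2 hg hW ha hc' (fun x hx he => by rw [he]; exact hN x hx (by omega)) hne
      (fun j => by
        have := hub j
        have := hU j
        omega)
  · by_cases hc' : c' = i
    · subst hc'
      exact (never hg hW hci hU).elim
    · refine basis_of_good (N := 0) fun n _ => ?_
      by_cases hne : ∃ l ∈ W i, dig g n l ≠ dig g a l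
      · obtain ⟨f, hf, h⟩ := rep_of_dig_ne hg hW ha hne
        exact ⟨f 0, f 1, f 2, hf 0, hf 1, hf 2, by rw [h, Fin.sum_univ_three]⟩
      push Not at hne
      have hub := ub hg hsa hne
      exact good_S1 hg hW ha hci hc' (fun j => by
        have := hub j
        have := hU j
        omega)

omit ha in
lemma dist1 (hsa : Sup g (W i) a) {n x y z : ℕ} {p q : Fin 3} (h1 : i ≠ p) (h2 : i ≠ q)
    (h3 : p ≠ q) (hx : Sup g (W i) x) (hy : Sup g (W p) y) (hz : Sup g (W q) z)
    (h : n = x + (y + z)) (hd : ∀ l ∈ W i, dig g n l = dig g a l) : x = a := by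
  apply dig_ext hg
  intro l
  by_cases hl : l ∈ W i
  · rw [← hd l hl, h]
    have hc : Sup g (W i)ᶜ (y + z) := by
      intro l hl
      have hl' : l ∈ W i := by simpa using hl
      exact avoid2 hg hW h3 hy hz (not_mem hW h1 hl') (not_mem hW h2 hl')
    rw [dig_add_compl hg hx hc, hc l (by simpa using hl), add_zero]
  · rw [hx l hl, hsa l hl]

/-- from a representation: either the summand `a` occurs, or two classes agree -/
lemma types {n : ℕ} (hd : ∀ l ∈ W i, dig g n l = dig g a l)
    (hG : Good (fullSet g W \ {a}) n) :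
    ∃ c c' x y z, Sup g (W c) x ∧ Sup g (W c) y ∧ Sup g (W c') z ∧ n = x + y + z ∧
      x ≠ a ∧ y ≠ a ∧ z ≠ a := by
  have hsa : Sup g (W i) a := ((mem_AG hg).1 ha).2
  obtain ⟨x, y, z, hx, hy, hz, h⟩ := hG
  obtain ⟨hxa, c1, hx⟩ := B_elim hg hx
  obtain ⟨hya, c2, hy⟩ := B_elim hg hy
  obtain ⟨hza, c3, hz⟩ := B_elim hg hz
  by_cases h12 : c1 = c2
  · subst h12
    exact ⟨c1, c3, x, y, z, hx, hy, hz, h, hxa, hya, hza⟩
  by_cases h13 : c1 = c3
  · subst h13
    exact ⟨c1, c2, x, z, y, hx, hz, hy, by omega, hxa, hza, hya⟩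
  by_cases h23 : c2 = c3
  · subst h23
    exact ⟨c2, c1, y, z, x, hy, hz, hx, by omega, hya, hza, hxa⟩
  exfalso
  rcases cover3 h12 h13 h23 i with rfl | rfl | rfl
  · exact hxa (dist1 hg hW hsa h12 h13 h23 hx hy hz (by omega) hd)
  · exact hya (dist1 hg hW hsa (Ne.symm h12) h23 h13 hy hx hz (by omega) hd)
  · exact hza (dist1 hg hW hsa (Ne.symm h13) (Ne.symm h23) h12 hz hx hy (by omega) hd)

lemma nec_U (hinf : (W i)ᶜ.Infinite) (hb : IsAsymptoticBasis 3 (fullSet g W \ {a})) :
    ∃ c c', ∀ j, a % g j + g j ≤ 2 * wt g (W c) j + wt g (W c') j + wt g (W i) j + 1 := by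
  classical
  have hsa : Sup g (W i) a := ((mem_AG hg).1 ha).2
  by_contra hcon
  push Not at hcon
  choose m hm using hcon
  obtain ⟨N0, hN0⟩ := good_of_basis hb
  obtain ⟨l0, hl0, hl0'⟩ := hinf.exists_gt N0
  have hl0 : l0 ∉ W i := hl0
  set J := l0 + a + ∑ c, ∑ c', m c c' + 1 with hJ
  have hmJ : ∀ c c', m c c' ≤ J := by
    intro c c'
    have e1 := Finset.single_le_sum (f := fun c' => m c c') (fun _ _ => Nat.zero_le _)
      (Finset.mem_univ c')
    have e2 := Finset.single_le_sum (f := fun c => ∑ c', m c c') (fun _ _ => Nat.zero_le _)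
      (Finset.mem_univ c)
    omega
  have hx := ext_lt hg (W i) a
  set n := val g (ext g (W i) a) J with hn
  have haJ : a < g J := lt_of_lt_of_le (by omega) (le_g hg _)
  have hnN0 : N0 ≤ n := by
    have h1 : ext g (W i) a l0 * g l0 ≤ n := by
      rw [hn]
      unfold val
      exact Finset.single_le_sum (f := fun l => ext g (W i) a l * g l)
        (fun _ _ => Nat.zero_le _) (Finset.mem_range.2 (by omega))
    have h2 : 1 ≤ ext g (W i) a l0 := by
      have := two_le_D hg l0
      rw [ext_not_mem hl0]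
      omega
    have h3 : 1 * g l0 ≤ ext g (W i) a l0 * g l0 := Nat.mul_le_mul_right _ h2
    have h4 := le_g hg l0
    omega
  have hd : ∀ l ∈ W i, dig g n l = dig g a l := by
    intro l hl
    rw [hn, dig_val' hg hx]
    split_ifs with h
    · exact ext_mem hl
    · exact (dig_eq_zero_of_le hg haJ (by omega)).symm
  obtain ⟨c, c', x, y, z, hx', hy', hz', h, -⟩ := types hg hW ha hd (hN0 n hnN0)
  have h1 := mod3_le hg hx' hy' hz' (m c c')
  rw [← h, hn, val_mod hg hx (hmJ c c')] at h1
  have h2 := val_ext hg hsa (m c c')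
  have h3 := hm c c'
  omega

lemma nec_E (hb : IsAsymptoticBasis 3 (fullSet g W \ {a})) : ¬ Exceptional g W i a := by
  rintro ⟨hsp, hinf⟩
  have hsa : Sup g (W i) a := ((mem_AG hg).1 ha).2
  obtain ⟨N0, hN0⟩ := good_of_basis hb
  obtain ⟨s, ⟨hs, hs1, hgs, hw, -, hlast⟩, hsgt⟩ := hinf.exists_gt (3 * a + N0)
  have hles := le_g hg s
  have has : 3 * a < g s := by omega
  have hgspos := gpos hg s
  have hgs2 := gsucc hg (s + 1)
  have hgs2' : 2 * g (s + 1) ≤ D g (s + 1) * g (s + 1) :=
    Nat.mul_le_mul_right _ (two_le_D hg (s + 1))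
  have hDs : D g s = 2 := by
    rw [gsucc hg s] at hgs
    exact Nat.eq_of_mul_eq_mul_right hgspos hgs
  set n := 3 * a + g (s + 1) with hn
  -- the digits of `n` at `W i`
  have hdd := dig_double hg (fun v hv => (hsp v hv).2.1)
  have h2a : Sup g (W i)ᶜ (2 * a) := by
    intro l hl
    have hl' : l ∈ W i := by simpa using hl
    rcases Nat.eq_zero_or_pos l with h0 | h0
    · rw [h0]; exact hdd.1
    · obtain ⟨k, rfl⟩ : ∃ k, l = k + 1 := ⟨l - 1, by omega⟩
      rw [hdd.2 k]
      by_contra hne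
      exact (hsp k hne).1 hl'
  have hmc : Sup g (W i)ᶜ (2 * a + g (s + 1)) :=
    sup_add hg (by omega) dvd_rfl h2a (sup_one hg (by simpa using hs1))
  have hnm : n = a + (2 * a + g (s + 1)) := by omega
  have hd : ∀ l ∈ W i, dig g n l = dig g a l := by
    intro l hl
    rw [hnm, dig_add_compl hg hsa hmc, hmc l (by simpa using hl), add_zero]
  obtain ⟨c, c', x, y, z, hx, hy, hz, h, hxa, hya, hza⟩ := types hg hW ha hd
    (hN0 n (by omega))
  by_cases hcc : c = i ∧ c' = i
  · obtain ⟨rfl, rfl⟩ := hcc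
    have hexp : ∀ r, Sup g (W c') r → r ≤ n → r = r % g s + dig g r s * g s := by
      intro r hr hrn
      have e1 := mod_succ hg r (s + 1)
      have e2 := mod_succ hg r s
      rw [hr (s + 1) hs1, zero_mul, add_zero, Nat.mod_eq_of_lt (by omega)] at e1
      omega
    have ex := hexp x hx (by omega)
    have ey := hexp y hy (by omega)
    have ez := hexp z hz (by omega)
    have bx := mod_le_wt hg hx s
    have bY := mod_le_wt hg hy s
    have bz := mod_le_wt hg hz s
    have hama : a % g s = a := Nat.mod_eq_of_lt (by omega)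
    have dx : dig g x s = 0 ∨ dig g x s = 1 := by have := dig_lt hg x s; omega
    have dy : dig g y s = 0 ∨ dig g y s = 1 := by have := dig_lt hg y s; omega
    have dz : dig g z s = 0 ∨ dig g z s = 1 := by have := dig_lt hg z s; omega
    have H : x % g s + y % g s + z % g s = 3 * (a % g s) ∧
        (x = x % g s ∨ y = y % g s ∨ z = z % g s) := by
      rcases dx with h' | h' <;> rcases dy with h'' | h'' <;> rcases dz with h''' | h''' <;>
        rw [h'] at ex <;> rw [h''] at ey <;> rw [h'''] at ez <;>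
        simp only [zero_mul, one_mul] at ex ey ez <;> omega
    obtain ⟨H1, H2⟩ := H
    obtain ⟨k1, k2, k3⟩ := claim2 hg hsa hsp hx hy hz s H1
    rcases H2 with H2 | H2 | H2
    · exact hxa (by omega)
    · exact hya (by omega)
    · exact hza (by omega)
  · obtain ⟨j, hj⟩ := hlast c c' hcc
    have h1 := mod3_le hg hx hy hz j
    rw [← h] at h1
    omega

end

end Pool.Agent.Lib_MP_fbe023_h3
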