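import Pool.Agent.Lib_MP_fbe023_h3.Final

set_option autoImplicit false

namespace Pool.Agent.Lib_MP_fbe023_h3

open Finset hiding val
open Pool.Agent.Results.MP_fbe023_nt.LargeQuotients

/-- the `t ∈ W c` for which the largest `l < t` outside `W c` is not in `W i`, or is `0` while
`g 1 = 2` -/
def BSet (g : ℕ → ℕ) (W : Fin 3 → Set ℕ) (i c : Fin 3) : Set ℕ :=
  {t | t ∈ W c ∧ ∃ l, l < t ∧ l ∉ W c ∧ (∀ k, l < k → k < t → k ∈ W c) ∧
    (l ∉ W i ∨ (l = 0 ∧ g 1 = 2))}

open Classical in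
/-- the extra condition for `a = 1` -/
def Chain (g : ℕ → ℕ) (W : Fin 3 → Set ℕ) (i c : Fin 3) : Prop :=
  (BSet g W i c).Finite ∨
  ((∀ t ∈ BSet g W i c, t - 1 ∉ W c ∧ g (t + 1) = 2 * g t) ∧
   (g 1 = 2 → 2 ∈ BSet g W i c → {t | t ∈ BSet g W i c ∧
      ¬ ∃ b, b + 1 < t ∧ b ∉ W i ∧ ∀ k, b ≤ k → k < t → k ∉ W c}.Finite) ∧
   (1 ∈ BSet g W i c → ∀ j, 2 ≤ j →
      1 + ∑ t ∈ range j with t ∈ BSet g W i c, g t ≤ 3 * wt g (W i) j))

section
variable {g : ℕ → ℕ} (hg : IsGAdic g)
include hg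

lemma dig_low (x b l : ℕ) : dig g (x % g b) l = if l < b then dig g x l else 0 := by
  split_ifs with h
  · exact dig_mod hg h
  · exact dig_eq_zero_of_le hg (Nat.mod_lt _ (gpos hg b)) (by omega)

lemma dig_hi (x b l : ℕ) : dig g (x - x % g b) l = if l < b then 0 else dig g x l := by
  have h1 := dig_high hg x b l
  rw [dig_low hg] at h1
  split_ifs at h1 ⊢ <;> omega

lemma dig_single {k x : ℕ} (hx : x < D g k) (l : ℕ) :
    dig g (x * g k) l = if l = k then x else 0 := by
  have h0 : x * g k < g (k + 1) := by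
    rw [gsucc hg k]
    exact Nat.mul_lt_mul_of_pos_right hx (gpos hg k)
  split_ifs with h
  · subst h
    have h1 := mod_succ hg (x * g l) l
    rw [Nat.mod_eq_of_lt h0, Nat.mul_mod_left, zero_add] at h1
    exact (Nat.eq_of_mul_eq_mul_right (gpos hg l) h1).symm
  · rcases lt_or_gt_of_ne h with h' | h'
    · have := dig_add_lt hg (s := 0) (y := x) h'
      rw [zero_add] at this
      rw [this]; simp [dig]
    · exact dig_eq_zero_of_le hg h0 (by omega)

lemma sup_sub {P : Set ℕ} {x J : ℕ} (hx : Sup g P x) (hJ : dig g x J ≠ 0) :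
    Sup g P (x - g J) ∧ g J ≤ x ∧ (∀ l, l ≠ J → dig g (x - g J) l = dig g x l) := by
  have hJP : J ∈ P := by
    by_contra h
    exact hJ (hx J h)
  have e1 := mod_succ hg x J
  have e2 : x % g (J + 1) ≤ x := Nat.mod_le _ _
  have e3 : dig g x J * g J = (dig g x J - 1) * g J + g J := by
    obtain ⟨e, he⟩ : ∃ e, dig g x J = e + 1 := ⟨dig g x J - 1, by omega⟩
    rw [he, Nat.add_sub_cancel, add_mul, one_mul]
  have e4 : x - g J = x % g J + ((dig g x J - 1) * g J + (x - x % g (J + 1))) := by omega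
  have hlt : (dig g x J - 1) < D g J := by
    have := dig_lt hg x J
    omega
  have hlt' : (dig g x J - 1) * g J < g (J + 1) := by
    rw [gsucc hg J]
    exact Nat.mul_lt_mul_of_pos_right hlt (gpos hg J)
  have hd1 : g (J + 1) ∣ x - x % g (J + 1) := Nat.dvd_sub_mod x
  have hd2 : g J ∣ (dig g x J - 1) * g J + (x - x % g (J + 1)) :=
    dvd_add (Dvd.intro_left _ rfl) ((hg.dvd J).trans hd1)
  have hdig : ∀ l, dig g (x - g J) l = (if l < J then dig g x l else 0) +
      ((if l = J then dig g x J - 1 else 0) + (if l < J + 1 then 0 else dig g x l)) := by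
    intro l
    rw [e4, dig_add_high hg (Nat.mod_lt _ (gpos hg J)) hd2, dig_add_high hg hlt' hd1,
      dig_low hg, dig_single hg hlt, dig_hi hg]
  refine ⟨?_, by omega, ?_⟩
  · intro l hl
    rw [hdig, hx l hl]
    have : l ≠ J := fun h => hl (h ▸ hJP)
    simp [this]
  · intro l hl
    rw [hdig, if_neg hl]
    split_ifs <;> omega

lemma sup_addm {P : Set ℕ} {x J y : ℕ} (hx : Sup g P x) (hJ : J ∈ P) (h0 : dig g x J = 0)
    (hy : y < D g J) : Sup g P (x + y * g J) := by
  have e1 := mod_succ hg x J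
  rw [h0, zero_mul, add_zero] at e1
  have e2 : x % g (J + 1) ≤ x := Nat.mod_le _ _
  have e4 : x + y * g J = x % g J + (y * g J + (x - x % g (J + 1))) := by omega
  have hlt' : y * g J < g (J + 1) := by
    rw [gsucc hg J]
    exact Nat.mul_lt_mul_of_pos_right hy (gpos hg J)
  have hd1 : g (J + 1) ∣ x - x % g (J + 1) := Nat.dvd_sub_mod x
  have hd2 : g J ∣ y * g J + (x - x % g (J + 1)) :=
    dvd_add (Dvd.intro_left _ rfl) ((hg.dvd J).trans hd1)
  rw [e4]
  exact sup_add hg (Nat.mod_lt _ (gpos hg J)) hd2 (sup_mod hg hx J)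
    (sup_add hg hlt' hd1 (sup_single hg hJ hy) (sup_high hg hx (J + 1)))

lemma sup_gsub {P : Set ℕ} {l t : ℕ} (hlt : l ≤ t) (h : ∀ k, l ≤ k → k < t → k ∈ P) :
    Sup g P (g t - g l) := by
  induction t, hlt using Nat.le_induction with
  | base => rw [Nat.sub_self]; exact sup_zero g P
  | succ t ht ih =>
    have h1 := ih (fun k hk hk' => h k hk (by omega))
    have h2 := gpos hg l
    have h3 : g l ≤ g t := hg.mono.monotone ht
    have h4 := gsucc hg t
    have h5 := two_le_D hg t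
    have h6 : (D g t - 1) * g t + g t = D g t * g t := by
      obtain ⟨e, he⟩ : ∃ e, D g t = e + 1 := ⟨D g t - 1, by omega⟩
      rw [he, Nat.add_sub_cancel, add_mul, one_mul]
    have h7 : g (t + 1) - g l = (g t - g l) + (D g t - 1) * g t := by omega
    rw [h7]
    exact sup_add hg (by omega) (Dvd.intro_left _ rfl) h1
      (sup_single hg (h t ht (by omega)) (by omega))

lemma dig_sub_lt {x y b k : ℕ} (hy : g b ∣ y) (hyx : y ≤ x) (hk : k < b) :
    dig g (x - y) k = dig g x k := by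
  obtain ⟨z, rfl⟩ := hy
  have := dig_add_lt hg (s := x - g b * z) (y := z) hk
  rw [← this]
  congr 1
  rw [mul_comm z]
  omega

lemma sup_borrow {P : Set ℕ} {x t : ℕ} (hx : Sup g P x) (ht : dig g x t ≠ 0) :
    ∀ l, l ≤ t → (∀ k, l ≤ k → k ≤ t → k ∈ P) → Sup g P (x - g l) ∧ g l ≤ x := by
  intro l hl
  obtain ⟨e, he⟩ : ∃ e, t = l + e := ⟨t - l, by omega⟩
  induction e generalizing l with
  | zero =>
    intro _
    have : l = t := by omega
    subst this
    exact ⟨(sup_sub hg hx ht).1, (sup_sub hg hx ht).2.1⟩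
  | succ e ih =>
    intro h
    by_cases h0 : dig g x l = 0
    · obtain ⟨h1, h2⟩ := ih (l + 1) (by omega) (by omega) (fun k hk hk' => h k (by omega) hk')
      have h3 : dig g (x - g (l + 1)) l = 0 := by
        rw [dig_sub_lt hg dvd_rfl h2 (Nat.lt_succ_self l)]
        exact h0
      have h5 := two_le_D hg l
      have h4 := sup_addm hg h1 (h l le_rfl hl) h3 (y := D g l - 1) (by omega)
      have h6 : (D g l - 1) * g l + g l = D g l * g l := by
        obtain ⟨e, he⟩ : ∃ e, D g l = e + 1 := ⟨D g l - 1, by omega⟩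
        rw [he, Nat.add_sub_cancel, add_mul, one_mul]
      have h7 := gsucc hg l
      have h8 : x - g (l + 1) + (D g l - 1) * g l = x - g l := by omega
      rw [h8] at h4
      exact ⟨h4, by omega⟩
    · exact ⟨(sup_sub hg hx h0).1, (sup_sub hg hx h0).2.1⟩

lemma dig_one (l : ℕ) : dig g 1 l = if l = 0 then 1 else 0 := by
  have h := dig_single hg (k := 0) (x := 1) (by have := two_le_D hg 0; omega) l
  rwa [hg.zero, mul_one] at h

lemma one_mod {j : ℕ} (hj : 1 ≤ j) : 1 % g j = 1 := by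
  apply Nat.mod_eq_of_lt
  have h1 : g 0 < g j := hg.mono (by omega)
  rw [hg.zero] at h1
  exact h1

variable {W : Fin 3 → Set ℕ} (hW : IsPartition W)
include hW

variable {i : Fin 3} (ha : 1 ∈ AG g (W i))
include ha

omit hW in
lemma zero_mem : 0 ∈ W i := by
  by_contra h
  have h1 := ((mem_AG hg).1 ha).2 0 h
  rw [dig_one hg] at h1
  simp at h1

lemma F1 {p q : Fin 3} (hp : i ≠ p) (hq : i ≠ q) (hpq : p ≠ q)
    (hU : ∀ j, 1 % g j + g j ≤ 2 * wt g (W i) j + wt g (W p) j + wt g (W i) j + 1)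
    {t : ℕ} (ht : t ∈ W q) : D g t = 2 ∧ ∃ k, t = k + 1 ∧ k ∈ W i := by
  have h0 := zero_mem hg ha
  have h1 := hU (t + 1)
  rw [one_mod hg (by omega)] at h1
  have h2 := wt_succ_not_mem hg (not_mem hW (Ne.symm hq) ht)
  have h3 := wt_succ_not_mem hg (not_mem hW (Ne.symm hpq) ht)
  have h2' : wt g (W i) (t + 1) = wt g (W i) t := h2
  have h3' : wt g (W p) (t + 1) = wt g (W p) t := h3
  have h4 := wlt2 hg hW hp t
  have h5 := gsucc hg t
  have h6 := wt_lt hg (W i) t
  have h7 := two_le_D hg t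
  have hgt := gpos hg t
  constructor
  · by_contra hne
    have : 3 * g t ≤ D g t * g t := Nat.mul_le_mul_right _ (by omega)
    omega
  · rcases Nat.eq_zero_or_pos t with h | h
    · exact absurd (h ▸ ht) (not_mem hW hq h0)
    · obtain ⟨k, rfl⟩ : ∃ k, t = k + 1 := ⟨t - 1, by omega⟩
      refine ⟨k, rfl, ?_⟩
      by_contra hk
      have h8 : wt g (W i) (k + 1) = wt g (W i) k := wt_succ_not_mem hg hk
      have h9 := wt_lt hg (W i) k
      have h10 := gsucc hg k
      have h11 : 2 * g k ≤ D g k * g k := Nat.mul_le_mul_right _ (two_le_D hg k)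
      have h12 : 2 * g (k + 1) ≤ D g (k + 1) * g (k + 1) :=
        Nat.mul_le_mul_right _ (two_le_D hg (k + 1))
      omega

lemma F2 (hU : ∀ j, 1 % g j + g j ≤ 2 * wt g (W i) j + wt g (W i) j + wt g (W i) j + 1)
    {t : ℕ} (ht : t ∉ W i) : ∃ k, t = k + 1 ∧ k ∈ W i := by
  have h0 := zero_mem hg ha
  have h1 := hU (t + 1)
  rw [one_mod hg (by omega)] at h1
  have h2 : wt g (W i) (t + 1) = wt g (W i) t := wt_succ_not_mem hg ht
  have h5 := gsucc hg t
  have h7 : 2 * g t ≤ D g t * g t := Nat.mul_le_mul_right _ (two_le_D hg t)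
  have hgt := gpos hg t
  rcases Nat.eq_zero_or_pos t with h | h
  · exact absurd h0 (h ▸ ht)
  · obtain ⟨k, rfl⟩ : ∃ k, t = k + 1 := ⟨t - 1, by omega⟩
    refine ⟨k, rfl, ?_⟩
    by_contra hk
    have h8 : wt g (W i) (k + 1) = wt g (W i) k := wt_succ_not_mem hg hk
    have h9 := wt_lt hg (W i) k
    have h10 := gsucc hg k
    have h11 : 2 * g k ≤ D g k * g k := Nat.mul_le_mul_right _ (two_le_D hg k)
    omega

/-- a chain starting in `W i` -/
lemma good_one_chain {p : Fin 3} (hp : i ≠ p) {x t l : ℕ} (hx : Sup g (W p) x)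
    (ht : dig g x t ≠ 0) (hlt : l < t) (hl : l ∈ W i) (hrun : ∀ k, l < k → k ≤ t → k ∈ W p)
    (hl0 : ¬ (l = 0 ∧ g 1 = 2)) : Good (fullSet g W \ {1}) (1 + x) := by
  obtain ⟨h1, h2⟩ := sup_borrow hg hx ht (l + 1) (by omega) (fun k hk hk' => hrun k (by omega) hk')
  have h3 : x - g (l + 1) ≠ 1 := by
    intro h
    rw [h] at h1
    exact not_sup hg hW ha (Ne.symm hp) h1
  have h5 := two_le_D hg l
  have h6 : (D g l - 1) * g l + g l = D g l * g l := by
    obtain ⟨e, he⟩ : ∃ e, D g l = e + 1 := ⟨D g l - 1, by omega⟩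
    rw [he, Nat.add_sub_cancel, add_mul, one_mul]
  have h7 := gsucc hg l
  rcases Nat.eq_zero_or_pos l with h0 | h0
  · subst h0
    have hg1 : g 1 = D g 0 := by
      have := gsucc hg 0
      rw [hg.zero, mul_one] at this
      exact this
    have hD : 3 ≤ D g 0 := by
      by_contra hcon
      apply hl0
      refine ⟨rfl, ?_⟩
      omega
    have s1 := sup_single hg hl (x := 2) (by omega)
    have s2 := sup_single hg hl (x := D g 0 - 1) (by omega)
    rw [hg.zero] at s1 s2 h6 h7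
    exact ⟨_, _, _, mem_B hg s1 (by omega), mem_B hg s2 (by omega), mem_B hg h1 h3, by omega⟩
  · have hgl : g 0 < g l := hg.mono h0
    rw [hg.zero] at hgl
    have s0 : Sup g (W i) 1 := ((mem_AG hg).1 ha).2
    have s1 : Sup g (W i) (1 + (D g l - 1) * g l) :=
      sup_add hg hgl (Dvd.intro_left _ rfl) s0 (sup_single hg hl (by omega))
    have s2 := sup_one hg hl
    have h8 : 1 * g l ≤ (D g l - 1) * g l := Nat.mul_le_mul_right _ (by omega)
    exact ⟨_, _, _, mem_B hg s1 (by omega), mem_B hg s2 (by omega), mem_B hg h1 h3, by omega⟩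

/-- `t ∈ W p` outside `BSet` starts a chain -/
lemma chain_of_not_B {p : Fin 3} (hp : i ≠ p) {t : ℕ} (ht : t ∈ W p)
    (hB : t ∉ BSet g W i p) : ∃ l, l < t ∧ l ∈ W i ∧ (∀ k, l < k → k ≤ t → k ∈ W p) ∧
      ¬ (l = 0 ∧ g 1 = 2) := by
  classical
  have h0 := zero_mem hg ha
  have h0p : 0 ∉ W p := not_mem hW hp h0
  have ht0 : 0 < t := by
    rcases Nat.eq_zero_or_pos t with h | h
    · exact absurd (h ▸ ht) h0p
    · exact h
  set l := Nat.findGreatest (fun l => l ∉ W p) (t - 1) with hl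
  have h1 : l ∉ W p := Nat.findGreatest_spec (P := fun l => l ∉ W p) (Nat.zero_le _) h0p
  have h2 : l ≤ t - 1 := Nat.findGreatest_le _
  have h3 : ∀ k, l < k → k < t → k ∈ W p := by
    intro k hk hk'
    have := Nat.findGreatest_is_greatest (P := fun l => l ∉ W p) hk (by omega)
    simpa using this
  have h4 : ¬ (l ∉ W i ∨ (l = 0 ∧ g 1 = 2)) := by
    intro h
    exact hB ⟨ht, l, by omega, h1, h3, h⟩
  push Not at h4
  refine ⟨l, by omega, h4.1, ?_, ?_⟩
  · intro k hk hk'
    rcases Nat.lt_or_ge k t with h | h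
    · exact h3 k hk h
    · have : k = t := by omega
      rwa [this]
  · rintro ⟨h5, h6⟩
    exact h4.2 h5 h6

/-- the type `(i, i, q)` -/
lemma good_iiq {p q : Fin 3} (hp : i ≠ p) (hq : i ≠ q) (hpq : p ≠ q) {x t : ℕ}
    (hx : Sup g (W p) x) (ht : dig g x t ≠ 0)
    (hn : ∀ j, (1 + x) % g j ≤ 2 * wt g (W i) j + wt g (W q) j) :
    Good (fullSet g W \ {1}) (1 + x) := by
  have htp : t ∈ W p := by
    by_contra h
    exact ht (hx t h)
  obtain ⟨u, v, w, hu, hv, hw, h⟩ := rep3 hg (W i) (W i) (W q) (1 + x)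
    (fun j => by have := hn j; omega)
  have key : ∀ r s, Sup g (W i) r → Sup g (W q) s → r + s ≠ x := by
    intro r s hr hs he
    rw [← he] at ht
    exact ht (avoid2 hg hW hq hr hs (not_mem hW hp.symm htp) (not_mem hW hpq htp))
  refine ⟨u, v, w, mem_B hg hu ?_, mem_B hg hv ?_, mem_B hg hw ?_, h⟩
  · intro h1; exact key v w hv hw (by omega)
  · intro h1; exact key u w hu hw (by omega)
  · intro h1
    rw [h1] at hw
    exact not_sup hg hW ha (Ne.symm hq) hw

/-- the type `(i, i, i)` -/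
lemma good_iii {p : Fin 3} (hp : i ≠ p) {x t : ℕ}
    (hx : Sup g (W p) x) (ht : dig g x (t + 1) ≠ 0) (ht' : t ∉ W i)
    (hn : ∀ j, (1 + x) % g j ≤ 3 * wt g (W i) j) :
    Good (fullSet g W \ {1}) (1 + x) := by
  have htp : t + 1 ∈ W p := by
    by_contra h
    exact ht (hx _ h)
  obtain ⟨u, v, w, hu, hv, hw, h⟩ := rep3 hg (W i) (W i) (W i) (1 + x)
    (fun j => by have := hn j; omega)
  have key : ∀ r s, Sup g (W i) r → Sup g (W i) s → r + s ≠ x := by
    intro r s hr hs he
    rw [← he] at ht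
    obtain ⟨-, k, hk, hk'⟩ := carry hg hr hs (not_mem hW hp.symm htp) ht
    have : t = k := by omega
    exact ht' (this ▸ hk')
  exact ⟨u, v, w, mem_B hg hu (fun h1 => key v w hv hw (by omega)),
    mem_B hg hv (fun h1 => key u w hu hw (by omega)),
    mem_B hg hw (fun h1 => key u v hu hv (by omega)), h⟩

omit hW ha in
lemma wt_mono (P : Set ℕ) (j : ℕ) : wt g P j ≤ wt g P (j + 1) := by
  rw [wt_succ]
  exact Nat.le_add_right _ _

omit hW ha in
lemma mod_le_add (x j : ℕ) : (1 + x) % g j ≤ 1 % g j + x % g j := by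
  rw [Nat.add_mod]
  exact Nat.mod_le _ _

lemma ineq_iiq {p q : Fin 3} (hp : i ≠ p) (hq : i ≠ q) (hpq : p ≠ q)
    (hU : ∀ j, 1 % g j + g j ≤ 2 * wt g (W i) j + wt g (W p) j + wt g (W i) j + 1)
    {x : ℕ} (hx : Sup g (W p) x)
    (hs : ∀ t, dig g x t ≠ 0 → dig g x t = 1 ∧ ∃ k, t = k + 1 ∧ k ∈ W q ∧
      (g 1 = 2 → t ≠ 2)) (j : ℕ) :
    1 % g j + x % g j ≤ 2 * wt g (W i) j + wt g (W q) j := by
  have h0 := zero_mem hg ha
  have h0p : 0 ∉ W p := not_mem hW hp h0
  have h0q : 0 ∉ W q := not_mem hW hq h0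
  have hw1 : wt g (W i) 1 + 1 = g 1 := by
    have := wt_succ_mem hg h0
    have e : wt g (W i) 0 = 0 := by simp [wt, val]
    rw [hg.zero, e] at this
    simpa using this
  induction j using Nat.strong_induction_on with
  | _ j ih =>
    rcases Nat.eq_zero_or_pos j with hj | hj
    · subst hj
      rw [hg.zero]; simp [Nat.mod_one]
    obtain ⟨j, rfl⟩ : ∃ k, j = k + 1 := ⟨j - 1, by omega⟩
    have hxs := mod_succ hg x j
    by_cases hd : dig g x j = 0
    · rw [hd, zero_mul, add_zero] at hxs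
      have e1 := wt_mono hg (W i) j
      have e2 := wt_mono hg (W q) j
      rcases Nat.eq_zero_or_pos j with hj0 | hj0
      · subst hj0
        have hx0 : x % g 0 = 0 := by rw [hg.zero, Nat.mod_one]
        have e3 := one_mod hg (le_refl 1)
        have e4 : g 0 < g 1 := hg.mono (by omega)
        rw [hg.zero] at e4
        simp only [zero_add] at hxs ⊢
        omega
      · have e3 := ih j (by omega)
        rw [one_mod hg hj0] at e3
        rw [one_mod hg (by omega)]
        omega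
    · obtain ⟨h1, k, rfl, hk, hk2⟩ := hs j hd
      obtain ⟨hDk, m, rfl, hm⟩ := F1 hg hW ha hp hq hpq hU hk
      have hjp : m + 1 + 1 ∈ W p := by
        by_contra h
        exact hd (hx _ h)
      rw [h1, one_mul] at hxs
      have hxk := mod_succ hg x (m + 1)
      rw [hx (m + 1) (not_mem hW hpq.symm hk), zero_mul, add_zero] at hxk
      have hxm := mod_succ hg x m
      rw [hx m (not_mem hW hp hm), zero_mul, add_zero] at hxm
      have w1 : wt g (W i) (m + 1 + 1 + 1) = wt g (W i) (m + 1 + 1) :=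
        wt_succ_not_mem hg (not_mem hW hp.symm hjp)
      have w2 : wt g (W i) (m + 1 + 1) = wt g (W i) (m + 1) :=
        wt_succ_not_mem hg (not_mem hW hq.symm hk)
      have w3 : wt g (W i) (m + 1) + g m = wt g (W i) m + g (m + 1) := wt_succ_mem hg hm
      have w4 : wt g (W q) (m + 1 + 1 + 1) = wt g (W q) (m + 1 + 1) :=
        wt_succ_not_mem hg (not_mem hW hpq hjp)
      have w5 : wt g (W q) (m + 1 + 1) + g (m + 1) = wt g (W q) (m + 1) + g (m + 1 + 1) :=
        wt_succ_mem hg hk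
      have w6 : wt g (W q) (m + 1) = wt g (W q) m := wt_succ_not_mem hg (not_mem hW hq hm)
      have g1 : g (m + 1 + 1) = D g (m + 1) * g (m + 1) := gsucc hg (m + 1)
      rw [hDk] at g1
      have g2 := gsucc hg m
      have g3 : 2 * g m ≤ D g m * g m := Nat.mul_le_mul_right _ (two_le_D hg m)
      rw [one_mod hg (by omega)]
      rcases Nat.eq_zero_or_pos m with hm0 | hm0
      · subst hm0
        have e1 : x % g 0 = 0 := by rw [hg.zero, Nat.mod_one]
        have e2 : wt g (W q) 0 = 0 := by simp [wt, val]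
        have e3 : wt g (W i) 0 = 0 := by simp [wt, val]
        have e4 : g 0 < g 1 := hg.mono (by omega)
        have e5 : g 1 ≠ 2 := fun h => hk2 h rfl
        rw [hg.zero] at e4 w3
        simp only [zero_add] at *
        omega
      · have e3 := ih m (by omega)
        rw [one_mod hg hm0] at e3
        omega

/-- the type `(i, q, q)` with a long chain -/
lemma good_long {p q : Fin 3} (hp : i ≠ p) (hq : i ≠ q) (hpq : p ≠ q)
    (hU : ∀ j, 1 % g j + g j ≤ 2 * wt g (W i) j + wt g (W p) j + wt g (W i) j + 1)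
    {x : ℕ} (hx : Sup g (W p) x)
    (hs : ∀ t, dig g x t ≠ 0 → dig g x t = 1 ∧ ∃ k, t = k + 1 ∧ k ∈ W q)
    {t0 : ℕ} (ht0 : dig g x t0 ≠ 0)
    (hL : ∃ b, b + 1 < t0 ∧ b ∉ W i ∧ ∀ k, b ≤ k → k < t0 → k ∉ W p) :
    Good (fullSet g W \ {1}) (1 + x) := by
  classical
  have h0 := zero_mem hg ha
  have h0p : 0 ∉ W p := not_mem hW hp h0
  -- the maximal `b`
  obtain ⟨b, ⟨hb1, hb2, hb3⟩, hbmax⟩ : ∃ b, (b + 1 < t0 ∧ b ∉ W i ∧
      ∀ k, b ≤ k → k < t0 → k ∉ W p) ∧ ∀ b', b < b' → ¬ (b' + 1 < t0 ∧ b' ∉ W i ∧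
      ∀ k, b' ≤ k → k < t0 → k ∉ W p) := by
    obtain ⟨b0, hb0⟩ := hL
    refine ⟨Nat.findGreatest (fun b => b + 1 < t0 ∧ b ∉ W i ∧
      ∀ k, b ≤ k → k < t0 → k ∉ W p) t0, ?_, ?_⟩
    · exact Nat.findGreatest_spec (P := fun b => b + 1 < t0 ∧ b ∉ W i ∧
        ∀ k, b ≤ k → k < t0 → k ∉ W p) (show b0 ≤ t0 by omega) hb0
    · intro b' hb' hcon
      exact Nat.findGreatest_is_greatest (P := fun b => b + 1 < t0 ∧ b ∉ W i ∧
        ∀ k, b ≤ k → k < t0 → k ∉ W p) hb' (by omega) hcon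
  have hbq : b ∈ W q := by
    obtain ⟨c, hc⟩ := hW.cover b
    rcases cover3 hp hq hpq c with h | h | h
    · subst h; exact absurd hc hb2
    · subst h; exact absurd hc (hb3 b le_rfl (by omega))
    · subst h; exact hc
  obtain ⟨hxt0, T, rfl, hT⟩ := hs t0 ht0
  obtain ⟨hDT, m, hm, hmi⟩ := F1 hg hW ha hp hq hpq hU hT
  obtain ⟨hDb, -⟩ := F1 hg hW ha hp hq hpq hU hbq
  have hbT : b + 1 < T := by
    have : b + 1 ≠ T := by
      intro h
      have : b = m := by omega
      exact hb2 (this ▸ hmi)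
    omega
  have hrun : ∀ k, b + 1 ≤ k → k < T → k ∈ W i := by
    intro k hk hk'
    by_contra hki
    exact hbmax k (by omega) ⟨by omega, hki, fun k' h1 h2 => hb3 k' (by omega) h2⟩
  -- the half of `x`
  have hxlt : x < g (x + 1) := lt_of_lt_of_le (by omega) (le_g hg _)
  have hyD : ∀ l, dig g x (l + 1) < D g l := by
    intro l
    have := two_le_D hg l
    by_cases h : dig g x (l + 1) = 0
    · omega
    · have := (hs (l + 1) h).1
      omega
  set y := val g (fun l => dig g x (l + 1)) x with hy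
  have hyd : ∀ l, dig g y l = dig g x (l + 1) := by
    intro l
    rw [hy, dig_val' hg hyD]
    split_ifs with h
    · rfl
    · exact (dig_eq_zero_of_le hg hxlt (by omega)).symm
  have h2y : 2 * y = x := by
    have e1 : x = val g (dig g x) (x + 1) := eq_val hg hxlt
    rw [hy]
    conv_rhs => rw [e1]
    unfold val
    rw [sum_range_succ' (fun j => dig g x j * g j) x, hx 0 h0p, zero_mul, add_zero, mul_sum]
    apply sum_congr rfl
    intro l _
    show 2 * (dig g x (l + 1) * g l) = dig g x (l + 1) * g (l + 1)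
    by_cases h : dig g x (l + 1) = 0
    · rw [h]; simp
    · obtain ⟨-, k, hk, hkq⟩ := hs (l + 1) h
      have : l = k := by omega
      subst this
      rw [gsucc hg l, (F1 hg hW ha hp hq hpq hU hkq).1]
      ring
  have hyq : Sup g (W q) y := by
    intro l hl
    rw [hyd]
    by_contra h
    obtain ⟨-, k, hk, hkq⟩ := hs (l + 1) h
    have : l = k := by omega
    exact hl (this ▸ hkq)
  have hyb : dig g y b = 0 := by
    rw [hyd]
    exact hx _ (hb3 (b + 1) (by omega) hb1)
  have hyT : dig g y T ≠ 0 := by rw [hyd]; exact ht0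
  have s0 : Sup g (W i) 1 := ((mem_AG hg).1 ha).2
  have hg1 : 1 < g (b + 1) := by
    have : g 0 < g (b + 1) := hg.mono (by omega)
    rwa [hg.zero] at this
  have hgT : g (b + 1) < g T := hg.mono hbT
  have u1 : Sup g (W i) (1 + (g T - g (b + 1))) :=
    sup_add hg hg1 (Nat.dvd_sub (g_dvd hg hbT.le) dvd_rfl) s0 (sup_gsub hg hbT.le hrun)
  have v1 : Sup g (W q) (y + 1 * g b) := sup_addm hg hyq hbq hyb (by omega)
  obtain ⟨w1, w2, w3⟩ := sup_sub hg hyq hyT
  have w4 : Sup g (W q) (y - g T + 1 * g b) :=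
    sup_addm hg w1 hbq (by rw [w3 b (by omega)]; exact hyb) (by omega)
  have hgb := gsucc hg b
  rw [hDb] at hgb
  refine ⟨_, _, _, mem_B hg u1 (by omega), mem_B hg v1 ?_, mem_B hg w4 ?_, by omega⟩
  · intro h
    rw [h] at v1
    exact not_sup hg hW ha (Ne.symm hq) v1
  · intro h
    rw [h] at w4
    exact not_sup hg hW ha (Ne.symm hq) w4

end

end Pool.Agent.Lib_MP_fbe023_h3
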