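import Pool.Agent.Lib_MP_fbe023_h3.One

set_option autoImplicit false

namespace Pool.Agent.Lib_MP_fbe023_h3

open Finset hiding val
open Pool.Agent.Results.MP_fbe023_nt.LargeQuotients

section
variable {g : ℕ → ℕ} (hg : IsGAdic g)
include hg

/-- carries of a sum of three numbers -/
lemma carries (u v w : ℕ) : ∃ c : ℕ → ℕ, c 0 = 0 ∧
    (∀ l, dig g u l + dig g v l + dig g w l + c l = dig g (u + v + w) l + c (l + 1) * D g l) ∧
    (∀ l, c l * g l ≤ u % g l + v % g l + w % g l) ∧ ∃ K, ∀ l, K ≤ l → c l = 0 := by
  set n := u + v + w with hn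
  have hmod : ∀ l, (u % g l + v % g l + w % g l) % g l = n % g l := by
    intro l
    rw [hn, Nat.add_mod (u + v) w, Nat.add_mod u v, Nat.add_mod (u % g l + v % g l) (w % g l)]
    simp only [Nat.mod_mod]
  have hs : ∀ l, u % g l + v % g l + w % g l =
      n % g l + (u % g l + v % g l + w % g l) / g l * g l := by
    intro l
    have h1 := Nat.div_add_mod (u % g l + v % g l + w % g l) (g l)
    rw [hmod l, mul_comm] at h1
    omega
  refine ⟨fun l => (u % g l + v % g l + w % g l) / g l, ?_, ?_, ?_, n + 1, ?_⟩
  · show (u % g 0 + v % g 0 + w % g 0) / g 0 = 0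
    rw [hg.zero]
    simp [Nat.mod_one]
  · intro l
    show dig g u l + dig g v l + dig g w l + (u % g l + v % g l + w % g l) / g l =
      dig g n l + (u % g (l + 1) + v % g (l + 1) + w % g (l + 1)) / g (l + 1) * D g l
    have h1 := hs l
    have h2 := hs (l + 1)
    have eu := mod_succ hg u l
    have ev := mod_succ hg v l
    have ew := mod_succ hg w l
    have en := mod_succ hg n l
    set C := (u % g l + v % g l + w % g l) / g l
    set C' := (u % g (l + 1) + v % g (l + 1) + w % g (l + 1)) / g (l + 1)
    apply Nat.eq_of_mul_eq_mul_right (gpos hg l)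
    have h3 : C' * g (l + 1) = C' * D g l * g l := by rw [gsucc hg l]; ring
    rw [h3] at h2
    have h4 : (dig g u l + dig g v l + dig g w l + C) * g l =
      dig g u l * g l + dig g v l * g l + dig g w l * g l + C * g l := by ring
    have h5 : (dig g n l + C' * D g l) * g l = dig g n l * g l + C' * D g l * g l := by ring
    rw [h4, h5]
    omega
  · intro l
    exact Nat.div_mul_le_self _ _
  · intro l hl
    show (u % g l + v % g l + w % g l) / g l = 0
    have h1 := le_g hg l
    apply Nat.div_eq_of_lt
    have := Nat.mod_le u (g l)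
    have := Nat.mod_le v (g l)
    have := Nat.mod_le w (g l)
    omega

omit hg in
lemma up {c : ℕ → ℕ} {K l : ℕ} (hK : ∀ k, K ≤ k → c k = 0) (hl : c (l + 1) ≠ 0) :
    ∃ t, l < t ∧ c (t + 1) = 0 ∧ ∀ k, l < k → k ≤ t → c k ≠ 0 := by
  classical
  have hex : ∃ m, l + 1 < m ∧ c m = 0 := ⟨K + l + 2, by omega, hK _ (by omega)⟩
  obtain ⟨h1, h2⟩ := Nat.find_spec hex
  obtain ⟨t, ht⟩ : ∃ t, Nat.find hex = t + 1 := ⟨Nat.find hex - 1, by omega⟩
  rw [ht] at h1 h2
  refine ⟨t, by omega, h2, ?_⟩
  intro k hk hk'
  rcases Nat.lt_or_ge (l + 1) k with h | h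
  · have := Nat.find_min hex (m := k) (by omega)
    exact fun h0 => this ⟨h, h0⟩
  · have : k = l + 1 := by omega
    rwa [this]

omit hg in
lemma down {c : ℕ → ℕ} {l : ℕ} (h0 : c 0 = 0) (hl : c l ≠ 0) :
    ∃ b, b < l ∧ c b = 0 ∧ ∀ k, b < k → k ≤ l → c k ≠ 0 := by
  classical
  refine ⟨Nat.findGreatest (fun k => c k = 0) l, ?_, ?_, ?_⟩
  · have h1 : Nat.findGreatest (fun k => c k = 0) l ≤ l := Nat.findGreatest_le _
    have h2 : c (Nat.findGreatest (fun k => c k = 0) l) = 0 :=
      Nat.findGreatest_spec (P := fun k => c k = 0) (Nat.zero_le _) h0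
    rcases Nat.lt_or_ge (Nat.findGreatest (fun k => c k = 0) l) l with h | h
    · exact h
    · have : Nat.findGreatest (fun k => c k = 0) l = l := by omega
      rw [this] at h2
      exact absurd h2 hl
  · exact Nat.findGreatest_spec (P := fun k => c k = 0) (Nat.zero_le _) h0
  · intro k hk hk'
    exact Nat.findGreatest_is_greatest (P := fun k => c k = 0) hk hk'

lemma eq_one_of {P : Set ℕ} {u : ℕ} (hu : Sup g P u) (h0 : dig g u 0 = 1)
    (h : ∀ l, 1 ≤ l → l ∈ P → dig g u l = 0) : u = 1 := by
  apply dig_ext hg
  intro l
  rw [dig_one hg]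
  rcases Nat.eq_zero_or_pos l with hl | hl
  · subst hl; simpa using h0
  · rw [if_neg (by omega)]
    by_cases hlP : l ∈ P
    · exact h l hl hlP
    · exact hu l hlP

variable {W : Fin 3 → Set ℕ} (hW : IsPartition W)
include hW

variable {i : Fin 3} (ha : 1 ∈ AG g (W i))
include ha

lemma dig_one_add {p : Fin 3} (hp : i ≠ p) {x : ℕ} (hx : Sup g (W p) x) (l : ℕ) :
    dig g (1 + x) l = (if l = 0 then 1 else 0) + dig g x l := by
  have s0 : Sup g (W i) 1 := ((mem_AG hg).1 ha).2
  rw [dig_add_of_lt hg, dig_one hg]
  intro j
  have e1 := mod_le_wt hg s0 j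
  have e2 := mod_le_wt hg hx j
  have e3 := wlt2 hg hW hp j
  omega

omit hg ha in
lemma Bfact {p q : Fin 3} (hp : i ≠ p) (hq : i ≠ q) (hpq : p ≠ q) {t b : ℕ}
    (ht : t ∈ BSet g W i p) (hbt : b < t) (hb : b ∈ W i)
    (h : ∀ k, b < k → k < t → k ∉ W q) : b = 0 ∧ g 1 = 2 := by
  obtain ⟨htp, l, hl, hlp, hrun, hor⟩ := ht
  have hbl : b ≤ l := by
    by_contra hcon
    exact not_mem hW hp hb (hrun b (by omega) hbt)
  rcases hor with hli | ⟨hl0, hg1⟩
  · exfalso
    obtain ⟨c, hc⟩ := hW.cover l
    rcases cover3 hp hq hpq c with h' | h' | h'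
    · subst h'; exact hli hc
    · subst h'; exact hlp hc
    · subst h'
      have : b ≠ l := fun h'' => hli (h'' ▸ hb)
      exact h l (by omega) hl hc
  · exact ⟨by omega, hg1⟩

lemma splitEv_ii (hU : ∀ j, 1 % g j + g j ≤
      2 * wt g (W i) j + wt g (W i) j + wt g (W i) j + 1) {p : Fin 3} (hp : i ≠ p) :
    SplitEv g W 1 p := by
  refine ⟨g 2 + 1, fun x hx hN => ?_⟩
  have hg2 := gpos hg 2
  obtain ⟨J, hJ1, hJ2, hJ3⟩ := exists_top hg (n := x) (by omega)
  have hJ : 2 ≤ J := by
    by_contra h
    have := hg.mono.monotone (show J + 1 ≤ 2 by omega)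
    omega
  have hJp : J ∈ W p := by
    by_contra h
    exact hJ3 (hx J h)
  obtain ⟨k, rfl, hk⟩ := F2 hg hW ha hU (not_mem hW hp.symm hJp)
  refine good_one_chain hg hW ha hp hx hJ3 (Nat.lt_succ_self k) hk ?_ ?_
  · intro k' h1 h2
    have : k' = k + 1 := by omega
    rwa [this]
  · rintro ⟨h, -⟩
    omega

lemma splitEv_ip {p : Fin 3} (hp : i ≠ p)
    (hU : ∀ j, 1 % g j + g j ≤ 2 * wt g (W i) j + wt g (W p) j + wt g (W i) j + 1)
    (hC : Chain g W i p) : SplitEv g W 1 p := by
  classical
  obtain ⟨q, hq, hpq⟩ := third hp
  have h0 := zero_mem hg ha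
  have h0p : 0 ∉ W p := not_mem hW hp h0
  rcases hC with hfin | ⟨hA, hL, hI⟩
  · obtain ⟨K, hK⟩ := hfin.bddAbove
    refine ⟨g (K + 1) + 1, fun x hx hN => ?_⟩
    have hgK := gpos hg (K + 1)
    obtain ⟨J, hJ1, hJ2, hJ3⟩ := exists_top hg (n := x) (by omega)
    have hJK : K + 1 ≤ J := by
      by_contra h
      have := hg.mono.monotone (show J + 1 ≤ K + 1 by omega)
      omega
    have hJp : J ∈ W p := by
      by_contra h
      exact hJ3 (hx J h)
    have hJB : J ∉ BSet g W i p := fun h => by have := hK h; omega
    obtain ⟨l, h1, h2, h3, h4⟩ := chain_of_not_B hg hW ha hp hJp hJB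
    exact good_one_chain hg hW ha hp hx hJ3 h1 h2 h3 h4
  · obtain ⟨K, hK⟩ : ∃ K, g 1 = 2 → 2 ∈ BSet g W i p → ∀ t ∈ BSet g W i p,
        K < t → ∃ b, b + 1 < t ∧ b ∉ W i ∧ ∀ k, b ≤ k → k < t → k ∉ W p := by
      by_cases h2 : g 1 = 2 ∧ 2 ∈ BSet g W i p
      · obtain ⟨K, hK⟩ := (hL h2.1 h2.2).bddAbove
        refine ⟨K, fun _ _ t ht hKt => ?_⟩
        by_contra hcon
        have := hK (show t ∈ {t | t ∈ BSet g W i p ∧
          ¬ ∃ b, b + 1 < t ∧ b ∉ W i ∧ ∀ k, b ≤ k → k < t → k ∉ W p} from ⟨ht, hcon⟩)
        omega
      · exact ⟨0, fun h h' => absurd ⟨h, h'⟩ h2⟩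
    refine ⟨g (K + 3) + 1, fun x hx hN => ?_⟩
    have hgK := gpos hg (K + 3)
    obtain ⟨J, hJ1, hJ2, hJ3⟩ := exists_top hg (n := x) (by omega)
    have hJK : K + 3 ≤ J := by
      by_contra h
      have := hg.mono.monotone (show J + 1 ≤ K + 3 by omega)
      omega
    by_cases hall : ∀ t, dig g x t ≠ 0 → t ∈ BSet g W i p
    swap
    · push Not at hall
      obtain ⟨t, ht, htB⟩ := hall
      have htp : t ∈ W p := by
        by_contra h
        exact ht (hx t h)
      obtain ⟨l, h1, h2, h3, h4⟩ := chain_of_not_B hg hW ha hp htp htB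
      exact good_one_chain hg hW ha hp hx ht h1 h2 h3 h4
    have hone : ∀ t, dig g x t ≠ 0 → dig g x t = 1 := by
      intro t ht
      have h1 := (hA t (hall t ht)).2
      rw [gsucc hg t] at h1
      have h2 := Nat.eq_of_mul_eq_mul_right (gpos hg t) h1
      have h3 := dig_lt hg x t
      omega
    have hprev : ∀ t, dig g x t ≠ 0 → t ≠ 1 → ∃ k, t = k + 1 ∧ k ∈ W q := by
      intro t ht ht1
      have htB := hall t ht
      have h1 := (hA t htB).1
      obtain ⟨htp, l, hl, hlp, hrun, hor⟩ := htB
      obtain ⟨k, rfl⟩ : ∃ k, t = k + 1 := ⟨t - 1, by omega⟩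
      rw [Nat.add_sub_cancel] at h1
      have hlk : l = k := by
        by_contra hne
        exact h1 (hrun k (by omega) (Nat.lt_succ_self k))
      subst hlk
      refine ⟨l, rfl, ?_⟩
      rcases hor with h | ⟨h, -⟩
      · obtain ⟨c, hc⟩ := hW.cover l
        rcases cover3 hp hq hpq c with h' | h' | h'
        · subst h'; exact absurd hc h
        · subst h'; exact absurd hc h1
        · subst h'; exact hc
      · omega
    have hJB := hall J hJ3
    by_cases h1 : dig g x 1 ≠ 0
    · have h1B := hall 1 h1
      obtain ⟨k, rfl, hk⟩ := hprev J hJ3 (by omega)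
      refine good_iii hg hW ha hp hx hJ3 (not_mem hW hq.symm hk) ?_
      intro j
      have hle := mod_le_add hg x j
      have hw1 : wt g (W i) 1 + 1 = g 1 := by
        have := wt_succ_mem hg h0
        have e : wt g (W i) 0 = 0 := by simp [wt, val]
        rw [hg.zero, e] at this
        simpa using this
      rcases Nat.lt_or_ge j 2 with hj | hj
      · rcases Nat.eq_zero_or_pos j with h' | h'
        · subst h'; rw [hg.zero]; simp [Nat.mod_one]
        · have : j = 1 := by omega
          subst this
          have e1 := mod_succ hg x 0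
          rw [hx 0 h0p, zero_mul, add_zero, hg.zero, Nat.mod_one, zero_add] at e1
          have e2 := one_mod hg (le_refl 1)
          have e4 : g 0 < g 1 := hg.mono (by omega)
          rw [hg.zero] at e4
          omega
      · have e1 := hI h1B j hj
        rw [one_mod hg (by omega), mod_eq_val hg x] at hle
        have e2 : val g (dig g x) j ≤ ∑ t ∈ range j with t ∈ BSet g W i p, g t := by
          unfold val
          rw [Finset.sum_filter]
          apply Finset.sum_le_sum
          intro l _
          by_cases hl : dig g x l = 0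
          · rw [hl, zero_mul]; exact Nat.zero_le _
          · rw [if_pos (hall l hl), hone l hl, one_mul]
        omega
    · have h1' : dig g x 1 = 0 := by simpa using h1
      have hs : ∀ t, dig g x t ≠ 0 → dig g x t = 1 ∧ ∃ k, t = k + 1 ∧ k ∈ W q := by
        intro t ht
        refine ⟨hone t ht, hprev t ht ?_⟩
        rintro rfl
        exact h1 ht
      by_cases h2 : dig g x 2 ≠ 0 ∧ g 1 = 2
      · exact good_long hg hW ha hp hq hpq hU hx hs hJ3
          (hK h2.2 (hall 2 h2.1) J hJB (by omega))
      · refine good_iiq hg hW ha hp hq hpq hx hJ3 (fun j => (mod_le_add hg x j).trans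
          (ineq_iiq hg hW ha hp hq hpq hU hx ?_ j))
        intro t ht
        obtain ⟨e1, k, e2, e3⟩ := hs t ht
        refine ⟨e1, k, e2, e3, ?_⟩
        rintro e4 rfl
        exact h2 ⟨ht, e4⟩

/-- the structure of the representations of `1 + x` -/
lemma nec_key {p q : Fin 3} (hp : i ≠ p) (hq : i ≠ q) (hpq : p ≠ q)
    (hU : ∀ j, 1 % g j + g j ≤ 2 * wt g (W i) j + wt g (W p) j + wt g (W i) j + 1)
    {x : ℕ} (hx : Sup g (W p) x) (hB : ∀ t, dig g x t ≠ 0 → t ∈ BSet g W i p)
    (hG : Good (fullSet g W \ {1}) (1 + x)) :
    (∀ t, dig g x t ≠ 0 → t - 1 ∉ W p ∧ dig g x t = 1) ∧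
    (g 1 = 2 → dig g x 2 ≠ 0 → ∃ t, dig g x t ≠ 0 ∧ ∃ b, b + 1 < t ∧ b ∉ W i ∧
      ∀ k, b ≤ k → k < t → k ∉ W p) ∧
    (dig g x 1 ≠ 0 → ∀ j, (1 + x) % g j ≤ 3 * wt g (W i) j) := by
  have h0 := zero_mem hg ha
  have h0p : 0 ∉ W p := not_mem hW hp h0
  have h0q : 0 ∉ W q := not_mem hW hq h0
  have hdn := dig_one_add hg hW ha hp hx
  have hD0 : D g 0 = g 1 := by
    have := gsucc hg 0
    rw [hg.zero, mul_one] at this
    exact this.symm
  have hd : ∀ l ∈ W i, dig g (1 + x) l = dig g 1 l := by
    intro l hl
    rw [hdn, hx l (not_mem hW hp hl), dig_one hg, add_zero]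
  have hcls : ∀ l, l ∈ W i ∨ l ∈ W p ∨ l ∈ W q := by
    intro l
    obtain ⟨c, hc⟩ := hW.cover l
    rcases cover3 hp hq hpq c with h | h | h <;> subst h <;> tauto
  -- digits of `1 + x`
  have N0 : dig g (1 + x) 0 = 1 := by rw [hdn, if_pos rfl, hx 0 h0p]
  have Ni : ∀ l, 1 ≤ l → l ∈ W i → dig g (1 + x) l = 0 := by
    intro l hl hli
    rw [hdn, if_neg (by omega), hx l (not_mem hW hp hli)]
  have Nq : ∀ l, l ∈ W q → dig g (1 + x) l = 0 := by
    intro l hlq
    have : l ≠ 0 := fun h => h0q (h ▸ hlq)
    rw [hdn, if_neg this, hx l (not_mem hW hpq.symm hlq)]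
  have Np : ∀ l, l ∈ W p → dig g (1 + x) l = dig g x l := by
    intro l hlp
    have : l ≠ 0 := fun h => h0p (h ▸ hlp)
    rw [hdn, if_neg this, zero_add]
  obtain ⟨c1, c2, u, v, w, hu, hv, hw, hsum, hu1, hv1, hw1⟩ := types hg hW ha hd hG
  obtain ⟨c, hc0, hR, hcg, K, hK⟩ := carries hg u v w
  rw [← hsum] at hR
  have hupper : ∀ l, c l * g l ≤ wt g (W c1) l + wt g (W c1) l + wt g (W c2) l := by
    intro l
    have e0 := hcg l
    have e1 := mod_le_wt hg hu l
    have e2 := mod_le_wt hg hv l
    have e3 := mod_le_wt hg hw l
    omega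
  have hle2 : ∀ l, c l ≤ 2 := by
    intro l
    have e0 := hupper l
    have e1 := wt_lt hg (W c1) l
    have e2 := wt_lt hg (W c2) l
    by_contra hcon
    have : 3 * g l ≤ c l * g l := Nat.mul_le_mul_right _ (by omega)
    omega
  have hle1 : c1 ≠ c2 → ∀ l, c l ≤ 1 := by
    intro hne l
    have e0 := hupper l
    have e1 := wt_lt hg (W c1) l
    have e2 := wlt2 hg hW hne l
    by_contra hcon
    have : 2 * g l ≤ c l * g l := Nat.mul_le_mul_right _ (by omega)
    omega
  have hcD : ∀ l, c l ≠ 0 → D g (l - 1) ≤ c l * D g (l - 1) := by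
    intro l hl
    have : 1 * D g (l - 1) ≤ c l * D g (l - 1) := Nat.mul_le_mul_right _ (by omega)
    omega
  have htpos : ∀ t, dig g x t ≠ 0 → ∃ k, t = k + 1 ∧ t ∈ W p := by
    intro t ht
    have htp : t ∈ W p := by
      by_contra h
      exact ht (hx t h)
    have : t ≠ 0 := fun h => h0p (h ▸ htp)
    exact ⟨t - 1, by omega, htp⟩
  by_cases hc1i : c1 = i
  · subst hc1i
    by_cases hc2i : c2 = c1
    · -- type (i, i, i)
      subst hc2i
      have z : ∀ l, l ∉ W c2 → c l = dig g (1 + x) l + c (l + 1) * D g l := by
        intro l hl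
        have := hR l
        rw [hu l hl, hv l hl, hw l hl] at this
        omega
      have R0 : g 1 = 2 → c 1 ≤ 1 := by
        intro hg1
        have := hR 0
        rw [hc0, N0, hD0, hg1] at this
        have e1 := dig_lt hg u 0
        have e2 := dig_lt hg v 0
        have e3 := dig_lt hg w 0
        rw [hD0, hg1] at e1 e2 e3
        simp only [zero_add] at this
        omega
      have A1 : ∀ t, dig g x t ≠ 0 → t - 1 ∉ W p := by
        intro t ht
        obtain ⟨k, rfl, htp⟩ := htpos t ht
        rw [Nat.add_sub_cancel]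
        intro hkp
        have e1 := z (k + 1) (not_mem hW hp.symm htp)
        rw [Np _ htp] at e1
        have e2 := z k (not_mem hW hp.symm hkp)
        have e3 := two_le_D hg k
        have e4 := hle2 k
        have e5 : c (k + 1) = 1 := by
          by_contra hne
          have : 2 * D g k ≤ c (k + 1) * D g k := Nat.mul_le_mul_right _ (by omega)
          omega
        rw [e5, one_mul] at e2
        have e6 : c k = 2 := by omega
        have hk0 : k ≠ 0 := fun h => h0p (h ▸ hkp)
        obtain ⟨m, rfl⟩ : ∃ m, k = m + 1 := ⟨k - 1, by omega⟩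
        by_cases hm : m ∈ W c2
        · obtain ⟨hm0, hg1⟩ := Bfact hW hp hq hpq (hB _ ht) (by omega) hm (by
            intro k' h1 h2
            have : k' = m + 1 := by omega
            rw [this]
            exact not_mem hW hpq hkp)
          subst hm0
          have := R0 hg1
          simp only [zero_add] at e6
          omega
        · have e7 := z m hm
          rw [e6] at e7
          have e8 := two_le_D hg m
          have e9 := hle2 m
          have : 2 * 2 ≤ 2 * D g m := Nat.mul_le_mul_left _ e8
          omega
      have Bq : ∀ k, dig g x (k + 1) ≠ 0 → (k ∈ W q) ∨ (k = 0 ∧ g 1 = 2) := by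
        intro k ht
        have h1 := A1 _ ht
        rw [Nat.add_sub_cancel] at h1
        rcases hcls k with h | h | h
        · right
          exact Bfact hW hp hq hpq (hB _ ht) (Nat.lt_succ_self k) h (by
            intro k' h1 h2; omega)
        · exact absurd h h1
        · exact Or.inl h
      refine ⟨fun t ht => ⟨A1 t ht, ?_⟩, ?_, ?_⟩
      · obtain ⟨k, rfl, htp⟩ := htpos t ht
        have e1 := z (k + 1) (not_mem hW hp.symm htp)
        rw [Np _ htp] at e1
        rcases Bq k ht with h | ⟨h, hg1⟩
        · have e2 := z k (not_mem hW hq.symm h)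
          rw [Nq k h, (F1 hg hW ha hp hq hpq hU h).1] at e2
          have e4 := hle2 k
          omega
        · subst h
          have := R0 hg1
          simp only [zero_add] at e1 ht ⊢
          omega
      · intro hg1 h2
        exfalso
        obtain ⟨k, hk, htp⟩ := htpos 2 h2
        have hk1 : k = 1 := by omega
        have e1 := z 2 (not_mem hW hp.symm htp)
        rw [Np _ htp] at e1
        rcases Bq 1 h2 with h | ⟨h, -⟩
        · have e2 := z 1 (not_mem hW hq.symm h)
          rw [Nq 1 h, (F1 hg hW ha hp hq hpq hU h).1] at e2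
          have e3 := R0 hg1
          have e4 : c (1 + 1) = c 2 := rfl
          omega
        · omega
      · intro _ j
        have := mod3_le hg hu hv hw j
        rw [← hsum] at this
        omega
    · -- types (i, i, p) and (i, i, q)
      have hle := hle1 (Ne.symm hc2i)
      have z0 : dig g w 0 = 0 := hw 0 (not_mem hW (Ne.symm hc2i) h0)
      have R0 : g 1 = 2 → c 1 = 0 := by
        intro hg1
        have := hR 0
        rw [hc0, N0, hD0, hg1, z0] at this
        have e1 := dig_lt hg u 0
        have e2 := dig_lt hg v 0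
        rw [hD0, hg1] at e1 e2
        simp only [zero_add] at this
        omega
      rcases cover3 hp hq hpq c2 with h | h | h
      · exact absurd h hc2i
      · -- type (i, i, p)
        subst h
        exfalso
        by_cases hall : ∀ l, c l = 0
        · have key : ∀ l, 1 ≤ l → l ∈ W c1 → dig g u l = 0 ∧ dig g v l = 0 := by
            intro l hl hli
            have := hR l
            rw [hall, hall, Ni l hl hli, zero_mul] at this
            omega
          have e0 := hR 0
          rw [hall, hall, N0, z0, zero_mul] at e0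
          rcases Nat.eq_zero_or_pos (dig g u 0) with h' | h'
          · exact hv1 (eq_one_of hg hv (by omega) (fun l hl hli => (key l hl hli).2))
          · exact hu1 (eq_one_of hg hu (by omega) (fun l hl hli => (key l hl hli).1))
        · push Not at hall
          obtain ⟨l, hl⟩ := hall
          obtain ⟨b, hbl, hb0, hbk⟩ := down hc0 hl
          have hb1 : c (b + 1) = 1 := by
            have e1 := hbk (b + 1) (by omega) (by omega)
            have e2 := hle (b + 1)
            omega
          have Rb := hR b
          rw [hb0, hb1, one_mul, add_zero] at Rb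
          have hbi : b ∈ W c1 := by
            rcases hcls b with h | h | h
            · exact h
            · rw [hu b (not_mem hW hp.symm h), hv b (not_mem hW hp.symm h)] at Rb
              have := dig_lt hg w b
              omega
            · rw [hu b (not_mem hW hq.symm h), hv b (not_mem hW hq.symm h),
                hw b (not_mem hW hpq.symm h)] at Rb
              have := two_le_D hg b
              omega
          obtain ⟨t, hbt, ht0, htk⟩ := up (c := c) (l := b) hK (by omega)
          have hk1 : ∀ k, b < k → k ≤ t → c k = 1 := by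
            intro k h1 h2
            have e1 := htk k h1 h2
            have e2 := hle k
            omega
          have Rt := hR t
          rw [ht0, hk1 t hbt le_rfl, zero_mul, add_zero] at Rt
          have htp : t ∈ W c2 := by
            rcases hcls t with h | h | h
            · rw [Ni t (by omega) h] at Rt; omega
            · exact h
            · rw [Nq t h] at Rt; omega
          rw [Np t htp] at Rt
          obtain ⟨hb00, hg1⟩ := Bfact hW hp hq hpq (hB t (by omega)) hbt hbi (by
            intro k h1 h2 hkq
            have Rk := hR k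
            rw [hk1 k h1 h2.le, hk1 (k + 1) (by omega) (by omega), Nq k hkq,
              hu k (not_mem hW hq.symm hkq), hv k (not_mem hW hq.symm hkq),
              hw k (not_mem hW hpq.symm hkq)] at Rk
            have := two_le_D hg k
            omega)
          subst hb00
          have := R0 hg1
          simp only [zero_add] at hb1
          omega
      · -- type (i, i, q)
        subst h
        have z : ∀ l, l ∈ W p → c l = dig g x l + c (l + 1) * D g l := by
          intro l hl
          have := hR l
          rw [hu l (not_mem hW hp.symm hl), hv l (not_mem hW hp.symm hl),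
            hw l (not_mem hW hpq hl), Np l hl] at this
          omega
        have c1t : ∀ t, dig g x t ≠ 0 → c t = 1 ∧ dig g x t = 1 := by
          intro t ht
          obtain ⟨k, rfl, htp⟩ := htpos t ht
          have e1 := z _ htp
          have e2 := hle (k + 1)
          omega
        have A1 : ∀ t, dig g x t ≠ 0 → t - 1 ∉ W p := by
          intro t ht
          obtain ⟨k, rfl, htp⟩ := htpos t ht
          rw [Nat.add_sub_cancel]
          intro hkp
          have e1 := z k hkp
          rw [(c1t _ ht).1, one_mul] at e1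
          have e2 := hle k
          have e3 := two_le_D hg k
          omega
        refine ⟨fun t ht => ⟨A1 t ht, (c1t t ht).2⟩, ?_, ?_⟩
        · intro hg1 h2
          exfalso
          have h1 := A1 2 h2
          have h1' : (1 : ℕ) ∉ W p := h1
          rcases hcls 1 with h | h | h
          · obtain ⟨h', -⟩ := Bfact hW hp hq hpq (hB _ h2) (show 1 < 2 by omega) h (by
              intro k h1 h2; omega)
            omega
          · exact h1' h
          · have e1 := hR 1
            have e2 : c (1 + 1) = 1 := (c1t 2 h2).1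
            rw [hu 1 (not_mem hW hq.symm h), hv 1 (not_mem hW hq.symm h), Nq 1 h, e2,
              (F1 hg hW ha hp hq hpq hU h).1, R0 hg1] at e1
            have e3 := dig_lt hg w 1
            rw [(F1 hg hW ha hp hq hpq hU h).1] at e3
            omega
        · intro h1
          exfalso
          obtain ⟨-, hg1⟩ := Bfact hW hp hq hpq (hB _ h1) (show 0 < 1 by omega) h0 (by
              intro k h1 h2; omega)
          have e1 := (c1t 1 h1).1
          have e2 := R0 hg1
          omega
  · by_cases hc2i : c2 = i
    · -- types (p, p, i) and (q, q, i)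
      subst hc2i
      have hle := hle1 hc1i
      have R0 : c 1 = 0 ∧ dig g w 0 = 1 := by
        have e0 := hR 0
        rw [hc0, N0, hu 0 (not_mem hW (Ne.symm hc1i) h0),
          hv 0 (not_mem hW (Ne.symm hc1i) h0)] at e0
        have e1 := dig_lt hg w 0
        simp only [zero_add, add_zero] at e0
        have e2 : c 1 = 0 := by
          by_contra hne
          have : 1 * D g 0 ≤ c 1 * D g 0 := Nat.mul_le_mul_right _ (by omega)
          omega
        rw [e2, zero_mul] at e0
        exact ⟨e2, by omega⟩
      obtain ⟨l, hl1, hli, hwl⟩ : ∃ l, 1 ≤ l ∧ l ∈ W c2 ∧ dig g w l ≠ 0 := by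
        by_contra hcon
        push Not at hcon
        exact hw1 (eq_one_of hg hw R0.2 hcon)
      have Rl := hR l
      rw [Ni l hl1 hli, hu l (not_mem hW (Ne.symm hc1i) hli),
        hv l (not_mem hW (Ne.symm hc1i) hli)] at Rl
      have hcl1 : c (l + 1) = 1 := by
        have e1 := hle (l + 1)
        by_contra hne
        have e2 : c (l + 1) = 0 := by omega
        rw [e2, zero_mul] at Rl
        omega
      rw [hcl1, one_mul] at Rl
      have hcl : c l = 1 := by
        have e1 := hle l
        have e2 := dig_lt hg w l
        omega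
      obtain ⟨t, hlt, ht0, htk⟩ := up (c := c) (l := l) hK (by omega)
      have hk1 : ∀ k, l < k → k ≤ t → c k = 1 := by
        intro k h1 h2
        have e1 := htk k h1 h2
        have e2 := hle k
        omega
      have Rt := hR t
      rw [ht0, hk1 t hlt le_rfl, zero_mul, add_zero] at Rt
      have htp : t ∈ W p := by
        rcases hcls t with h | h | h
        · rw [Ni t (by omega) h] at Rt; omega
        · exact h
        · rw [Nq t h] at Rt; omega
      rw [Np t htp] at Rt
      have htx : dig g x t ≠ 0 := by omega
      rcases cover3 hp hq hpq c1 with h | h | h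
      · exact absurd h hc1i
      · -- type (p, p, i)
        subst h
        exfalso
        obtain ⟨hb00, hg1⟩ := Bfact hW hp hq hpq (hB t htx) hlt hli (by
          intro k h1 h2 hkq
          have Rk := hR k
          rw [hk1 k h1 h2.le, hk1 (k + 1) (by omega) (by omega), Nq k hkq,
            hu k (not_mem hW hpq.symm hkq), hv k (not_mem hW hpq.symm hkq),
            hw k (not_mem hW hq.symm hkq)] at Rk
          have := two_le_D hg k
          omega)
        omega
      · -- type (q, q, i)
        subst h
        have z : ∀ l, l ∈ W p → c l = dig g x l + c (l + 1) * D g l := by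
          intro l hl
          have := hR l
          rw [hu l (not_mem hW hpq hl), hv l (not_mem hW hpq hl),
            hw l (not_mem hW hp.symm hl), Np l hl] at this
          omega
        have c1t : ∀ t, dig g x t ≠ 0 → c t = 1 ∧ dig g x t = 1 := by
          intro t ht
          obtain ⟨k, rfl, htp⟩ := htpos t ht
          have e1 := z _ htp
          have e2 := hle (k + 1)
          omega
        have npass : ∀ k, c k = 1 → c (k + 1) = 1 → k ∉ W p := by
          intro k e1 e2 hkp
          have e3 := z k hkp
          rw [e1, e2] at e3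
          have e4 := two_le_D hg k
          omega
        refine ⟨fun t ht => ⟨?_, (c1t t ht).2⟩, ?_, ?_⟩
        · obtain ⟨k, rfl, htp⟩ := htpos t ht
          rw [Nat.add_sub_cancel]
          intro hkp
          have e1 := z k hkp
          rw [(c1t _ ht).1, one_mul] at e1
          have e2 := hle k
          have e3 := two_le_D hg k
          omega
        · intro _ _
          obtain ⟨b, hbl, hb0, hbk⟩ := down (c := c) (l := l) hc0 (by omega)
          have hbk1 : ∀ k, b < k → k ≤ l → c k = 1 := by
            intro k h1 h2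
            have e1 := hbk k h1 h2
            have e2 := hle k
            omega
          have Rb := hR b
          rw [hb0, hbk1 (b + 1) (by omega) (by omega), one_mul, add_zero] at Rb
          have hbq : b ∈ W c1 := by
            rcases hcls b with h | h | h
            · rw [hu b (not_mem hW hq h), hv b (not_mem hW hq h)] at Rb
              have := dig_lt hg w b
              omega
            · rw [hu b (not_mem hW hpq h), hv b (not_mem hW hpq h),
                hw b (not_mem hW hp.symm h)] at Rb
              have := two_le_D hg b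
              omega
            · exact h
          refine ⟨t, htx, b, by omega, not_mem hW hq.symm hbq, ?_⟩
          intro k h1 h2
          rcases Nat.lt_or_ge k l with h' | h'
          · rcases Nat.lt_or_ge b k with h'' | h''
            · exact npass k (hbk1 k h'' h'.le) (hbk1 (k + 1) (by omega) (by omega))
            · have : k = b := by omega
              rw [this]
              exact not_mem hW hpq.symm hbq
          · rcases Nat.lt_or_ge l k with h'' | h''
            · exact npass k (hk1 k h'' h2.le) (hk1 (k + 1) (by omega) (by omega))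
            · have : k = l := by omega
              rw [this]
              exact not_mem hW hp hli
        · intro h1
          exfalso
          have e1 := (c1t 1 h1).1
          have e2 := R0.1
          omega
    · -- no summand of class i
      exfalso
      have e1 := mod3_le hg hu hv hw 1
      rw [← hsum] at e1
      have e2 := mod_succ hg (1 + x) 0
      rw [N0, hg.zero, Nat.mod_one] at e2
      have w1 : wt g (W c1) (0 + 1) = wt g (W c1) 0 :=
        wt_succ_not_mem hg (not_mem hW (Ne.symm hc1i) h0)
      have w2 : wt g (W c2) (0 + 1) = wt g (W c2) 0 :=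
        wt_succ_not_mem hg (not_mem hW (Ne.symm hc2i) h0)
      have w3 : wt g (W c1) 0 = 0 := by simp [wt, val]
      have w4 : wt g (W c2) 0 = 0 := by simp [wt, val]
      simp only [zero_add] at w1 w2 e2
      omega

end

end Pool.Agent.Lib_MP_fbe023_h3
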