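import Pool.Agent.Lib_MP_fbe023_h3.OneB

set_option autoImplicit false

namespace Pool.Agent.Lib_MP_fbe023_h3

open Finset hiding val
open Pool.Agent.Results.MP_fbe023_nt.LargeQuotients

section
variable {g : ℕ → ℕ} (hg : IsGAdic g)
include hg

variable {W : Fin 3 → Set ℕ} (hW : IsPartition W)
include hW

variable {i : Fin 3} (ha : 1 ∈ AG g (W i))
include ha

lemma nec_Chain {p : Fin 3} (hp : i ≠ p)
    (hU : ∀ j, 1 % g j + g j ≤ 2 * wt g (W i) j + wt g (W p) j + wt g (W i) j + 1)
    (hb : IsAsymptoticBasis 3 (fullSet g W \ {1})) : Chain g W i p := by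
  classical
  obtain ⟨q, hq, hpq⟩ := third hp
  have h0 := zero_mem hg ha
  have h0p : 0 ∉ W p := not_mem hW hp h0
  obtain ⟨N0, hN0⟩ := good_of_basis hb
  by_cases hfin : (BSet g W i p).Finite
  · exact Or.inl hfin
  right
  have hinf : (BSet g W i p).Infinite := hfin
  -- two-digit numbers
  have two : ∀ t1 t2 y, t1 ∈ BSet g W i p → t2 ∈ BSet g W i p → t1 < t2 → y < D g t1 →
      N0 ≤ t2 → (∀ l, dig g (y * g t1 + 1 * g t2) l =
        (if l = t1 then y else 0) + (if l = t2 then 1 else 0)) ∧
      Sup g (W p) (y * g t1 + 1 * g t2) ∧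
      (∀ t, dig g (y * g t1 + 1 * g t2) t ≠ 0 → t ∈ BSet g W i p) ∧
      Good (fullSet g W \ {1}) (1 + (y * g t1 + 1 * g t2)) := by
    intro t1 t2 y h1 h2 h12 hy hN
    have e1 : y * g t1 < g (t1 + 1) := by
      rw [gsucc hg t1]
      exact Nat.mul_lt_mul_of_pos_right hy (gpos hg t1)
    have e2 : g (t1 + 1) ∣ 1 * g t2 := by
      rw [one_mul]
      exact g_dvd hg (by omega)
    have hd : ∀ l, dig g (y * g t1 + 1 * g t2) l =
        (if l = t1 then y else 0) + (if l = t2 then 1 else 0) := by
      intro l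
      rw [dig_add_high hg e1 e2, dig_single hg hy,
        dig_single hg (by have := two_le_D hg t2; omega)]
    have hB : ∀ t, dig g (y * g t1 + 1 * g t2) t ≠ 0 → t ∈ BSet g W i p := by
      intro t ht
      rw [hd] at ht
      by_cases ht1 : t = t1
      · rw [ht1]; exact h1
      · by_cases ht2 : t = t2
        · rw [ht2]; exact h2
        · rw [if_neg ht1, if_neg ht2] at ht
          exact absurd rfl ht
    refine ⟨hd, ?_, hB, hN0 _ ?_⟩
    · intro l hl
      by_contra h
      exact hl (hB l h).1
    · have := le_g hg t2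
      omega
  refine ⟨?_, ?_, ?_⟩
  · intro t ht
    obtain ⟨t2, ht2, ht2'⟩ := hinf.exists_gt (t + N0)
    constructor
    · obtain ⟨h1, h2, h3, h4⟩ := two t t2 1 ht ht2 (by omega)
        (by have := two_le_D hg t; omega) (by omega)
      exact ((nec_key hg hW ha hp hq hpq hU h2 h3 h4).1 t (by
        rw [h1, if_pos rfl]; omega)).1
    · by_contra hne
      have hD : 2 < D g t := by
        have e1 := two_le_D hg t
        by_contra hcon
        apply hne
        rw [gsucc hg t]
        have : D g t = 2 := by omega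
        rw [this]
      obtain ⟨h1, h2, h3, h4⟩ := two t t2 2 ht ht2 (by omega) hD (by omega)
      have h5 := ((nec_key hg hW ha hp hq hpq hU h2 h3 h4).1 t (by
        rw [h1, if_pos rfl]; omega)).2
      rw [h1, if_pos rfl] at h5
      omega
  · intro hg1 h2B
    by_contra hnf
    obtain ⟨t2, ⟨ht2, hnL⟩, ht2'⟩ := (show Set.Infinite {t | t ∈ BSet g W i p ∧
      ¬ ∃ b, b + 1 < t ∧ b ∉ W i ∧ ∀ k, b ≤ k → k < t → k ∉ W p} from hnf).exists_gt (2 + N0)
    obtain ⟨h1, h2, h3, h4⟩ := two 2 t2 1 h2B ht2 (by omega)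
        (by have := two_le_D hg 2; omega) (by omega)
    obtain ⟨t, ht, b, hb1, hb2, hb3⟩ := (nec_key hg hW ha hp hq hpq hU h2 h3 h4).2.1 hg1
      (by rw [h1, if_pos rfl]; omega)
    rw [h1] at ht
    by_cases ht1 : t = 2
    · subst ht1
      have : b = 0 := by omega
      subst this
      exact hb2 h0
    · by_cases ht3 : t = t2
      · subst ht3
        exact hnL ⟨b, hb1, hb2, hb3⟩
      · rw [if_neg ht1, if_neg ht3] at ht
        exact absurd rfl ht
  · intro h1B j hj
    obtain ⟨t2, ht2, ht2'⟩ := hinf.exists_gt (j + N0)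
    set z : ℕ → ℕ := fun l => if l ∈ BSet g W i p then 1 else 0 with hz
    have hzD : ∀ l, z l < D g l := by
      intro l
      have := two_le_D hg l
      simp only [hz]
      split_ifs <;> omega
    set X := val g z j with hX
    have hXlt : X < g j := val_lt hg hzD j
    have hXd : ∀ l, dig g X l = if l < j then z l else 0 := fun l => dig_val' hg hzD l j
    have e2 : g j ∣ 1 * g t2 := by
      rw [one_mul]
      exact g_dvd hg (by omega)
    have hd : ∀ l, dig g (X + 1 * g t2) l =
        (if l < j then z l else 0) + (if l = t2 then 1 else 0) := by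
      intro l
      rw [dig_add_high hg hXlt e2, hXd,
        dig_single hg (by have := two_le_D hg t2; omega)]
    have hB : ∀ t, dig g (X + 1 * g t2) t ≠ 0 → t ∈ BSet g W i p := by
      intro t ht
      by_contra hnB
      apply ht
      rw [hd]
      have e3 : t ≠ t2 := fun h => hnB (h ▸ ht2)
      rw [if_neg e3]
      simp [hz, hnB]
    have hsup : Sup g (W p) (X + 1 * g t2) := by
      intro l hl
      by_contra h
      exact hl (hB l h).1
    have hsupX : Sup g (W p) X := by
      intro l hl
      rw [hXd]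
      have : l ∉ BSet g W i p := fun h => hl h.1
      simp [hz, this]
    have hG := hN0 (1 + (X + 1 * g t2)) (by
      have := le_g hg t2
      omega)
    have h5 := (nec_key hg hW ha hp hq hpq hU hsup hB hG).2.2 (by
      rw [hd, if_pos (by omega)]
      simp [hz, h1B]) j
    have s0 : Sup g (W i) 1 := ((mem_AG hg).1 ha).2
    have h6 : 1 + X < g j := by
      have f1 := mod_le_wt hg s0 j
      have f2 := mod_le_wt hg hsupX j
      have f3 := wlt2 hg hW hp j
      rw [one_mod hg (by omega)] at f1
      rw [Nat.mod_eq_of_lt hXlt] at f2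
      omega
    have h7 : (1 + (X + 1 * g t2)) % g j = 1 + X := by
      rw [← add_assoc, Nat.add_mod, Nat.mod_eq_zero_of_dvd e2, add_zero, Nat.mod_mod,
        Nat.mod_eq_of_lt h6]
    rw [h7] at h5
    have h8 : ∑ t ∈ range j with t ∈ BSet g W i p, g t = X := by
      rw [hX, Finset.sum_filter]
      unfold val
      apply sum_congr rfl
      intro l _
      simp only [hz]
      split_ifs <;> simp
    rw [h8]
    exact h5

/-- for `a = 1` the only possible universal types are `(i, i, c)` -/
lemma type_one {c c' : Fin 3}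
    (hU : ∀ j, 1 % g j + g j ≤ 2 * wt g (W c) j + wt g (W c') j + wt g (W i) j + 1) :
    c = i := by
  by_contra hc
  by_cases hc' : c' = i
  · subst hc'
    exact never hg hW hc hU
  · have h0 := zero_mem hg ha
    have h1 := hU 1
    rw [one_mod hg le_rfl] at h1
    have w1 : wt g (W c) (0 + 1) = wt g (W c) 0 :=
      wt_succ_not_mem hg (not_mem hW (Ne.symm hc) h0)
    have w2 : wt g (W c') (0 + 1) = wt g (W c') 0 :=
      wt_succ_not_mem hg (not_mem hW (Ne.symm hc') h0)
    have w3 : wt g (W c) 0 = 0 := by simp [wt, val]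
    have w4 : wt g (W c') 0 = 0 := by simp [wt, val]
    have w5 := wt_lt hg (W i) 1
    simp only [zero_add] at w1 w2
    omega

end

end Pool.Agent.Lib_MP_fbe023_h3
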