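import Pool.Agent.Lib_MP_fbe023_h3.Base

set_option autoImplicit false

namespace Pool.Agent.Lib_MP_fbe023_h3

open Finset hiding val
open Pool.Agent.Results.MP_fbe023_nt.LargeQuotients

/-- `n` is a sum of three elements of `B` -/
def Good (B : Set ℕ) (n : ℕ) : Prop := ∃ x y z, x ∈ B ∧ y ∈ B ∧ z ∈ B ∧ n = x + y + z

lemma basis_of_good {B : Set ℕ} {N : ℕ} (h : ∀ n, N ≤ n → Good B n) :
    IsAsymptoticBasis 3 B := by
  refine ⟨N, fun n hn => ?_⟩
  obtain ⟨x, y, z, hx, hy, hz, h⟩ := h n hn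
  refine ⟨![x, y, z], ?_, ?_⟩
  · intro t
    fin_cases t
    · exact hx
    · exact hy
    · exact hz
  · rw [Fin.sum_univ_three]
    simpa using h

lemma good_of_basis {B : Set ℕ} (h : IsAsymptoticBasis 3 B) :
    ∃ N, ∀ n, N ≤ n → Good B n := by
  obtain ⟨N, h⟩ := h
  refine ⟨N, fun n hn => ?_⟩
  obtain ⟨f, hf, h⟩ := h n hn
  exact ⟨f 0, f 1, f 2, hf 0, hf 1, hf 2, by rw [h, Fin.sum_univ_three]⟩

lemma univ3 : ∀ {i p q : Fin 3}, i ≠ p → i ≠ q → p ≠ q →
    (univ : Finset (Fin 3)) = {i, p, q} := by decide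

lemma sum3 (F : Fin 3 → ℕ) {i p q : Fin 3} (h1 : i ≠ p) (h2 : i ≠ q) (h3 : p ≠ q) :
    ∑ t, F t = F i + F p + F q := by
  rw [univ3 h1 h2 h3, sum_insert (by simp [h1, h2]), sum_pair h3]
  ring

lemma third : ∀ {i p : Fin 3}, i ≠ p → ∃ q, i ≠ q ∧ p ≠ q := by decide

lemma cover3 : ∀ {i p q : Fin 3}, i ≠ p → i ≠ q → p ≠ q → ∀ c, c = i ∨ c = p ∨ c = q := by
  decide

lemma two_others : ∀ i : Fin 3, ∃ p q, i ≠ p ∧ i ≠ q ∧ p ≠ q := by decide

section
variable {g : ℕ → ℕ} (hg : IsGAdic g)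
include hg

lemma mem_B {W : Fin 3 → Set ℕ} {a x : ℕ} {c : Fin 3} (hx : Sup g (W c) x) (hne : x ≠ a) :
    x ∈ fullSet g W \ {a} := by
  refine ⟨?_, by simpa using hne⟩
  rcases (mem_AG0 hg).2 hx with h0 | h0
  · left; simpa using h0
  · right; exact Set.mem_iUnion.2 ⟨c, h0⟩

lemma B_elim {W : Fin 3 → Set ℕ} {a x : ℕ} (hx : x ∈ fullSet g W \ {a}) :
    x ≠ a ∧ ∃ c, Sup g (W c) x := by
  refine ⟨by simpa using hx.2, ?_⟩
  rcases hx.1 with h0 | h0
  · rw [Set.mem_singleton_iff] at h0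
    exact ⟨0, by rw [h0]; exact sup_zero g _⟩
  · obtain ⟨c, hc⟩ := Set.mem_iUnion.1 h0
    exact ⟨c, ((mem_AG hg).1 hc).2⟩

lemma exists_dig {P : Set ℕ} {x : ℕ} (hx : Sup g P x) (h0 : x ≠ 0) :
    ∃ l ∈ P, dig g x l ≠ 0 := by
  by_contra hcon
  push Not at hcon
  apply h0
  apply dig_ext hg
  intro l
  rw [show dig g 0 l = 0 by simp [dig]]
  by_cases hl : l ∈ P
  · exact hcon l hl
  · exact hx l hl

variable {W : Fin 3 → Set ℕ} (hW : IsPartition W)
include hW

lemma wlt2 {p q : Fin 3} (h : p ≠ q) (j : ℕ) : wt g (W p) j + wt g (W q) j < g j := by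
  obtain ⟨r, h1, h2⟩ := third h
  have h3 := sum_wt hg hW j
  rw [sum3 _ h h1 h2] at h3
  omega

omit hg in
lemma not_mem {p q : Fin 3} (h : p ≠ q) {l : ℕ} (hl : l ∈ W p) : l ∉ W q :=
  fun h' => Set.disjoint_left.1 (hW.disjoint p q h) hl h'

variable {a : ℕ} {i : Fin 3} (ha : a ∈ AG g (W i))
include ha

lemma not_sup {c : Fin 3} (hc : c ≠ i) : ¬ Sup g (W c) a := by
  intro h
  have ha' := (mem_AG hg).1 ha
  obtain ⟨l, hl, hl'⟩ := exists_dig hg (P := W i) ha'.2 ha'.1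
  exact hl' (h l (not_mem hW (Ne.symm hc) hl))

lemma decomp {n : ℕ} (hd : ∀ l ∈ W i, dig g n l = dig g a l) {p q : Fin 3}
    (h1 : i ≠ p) (h2 : i ≠ q) (h3 : p ≠ q) :
    ∃ x y, Sup g (W p) x ∧ Sup g (W q) y ∧ n = a + (x + y) ∧
      (∀ l, l ∉ W i → dig g (x + y) l = dig g n l) ∧ (∀ l ∈ W i, dig g (x + y) l = 0) ∧
      (∀ l ∈ W p, dig g x l = dig g n l) ∧ (∀ l ∈ W q, dig g y l = dig g n l) := by
  have ha' := (mem_AG hg).1 ha
  have hn : n < g (n + 1) := lt_of_lt_of_le (by omega) (le_g hg _)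
  set x := part g (W p) n (n + 1) with hx
  set y := part g (W q) n (n + 1) with hy
  have hsx : Sup g (W p) x := fun l hl => dig_part_not_mem hg hl
  have hsy : Sup g (W q) y := fun l hl => dig_part_not_mem hg hl
  have hpa : part g (W i) n (n + 1) = a := by
    apply dig_ext hg
    intro l
    by_cases hl : l ∈ W i
    · rw [dig_part_mem hg hn hl, hd l hl]
    · rw [dig_part_not_mem hg hl, ha'.2 l hl]
  have hsum := sum_part hg hW n (n + 1)
  rw [sum3 _ h1 h2 h3, Nat.mod_eq_of_lt hn, hpa] at hsum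
  have hadd : ∀ l, dig g (x + y) l = dig g x l + dig g y l := by
    apply dig_add_of_lt hg
    intro j
    have e1 := mod_le_wt hg hsx j
    have e2 := mod_le_wt hg hsy j
    have e3 := wlt2 hg hW h3 j
    omega
  have hxp : ∀ l ∈ W p, dig g x l = dig g n l := fun l hl => dig_part_mem hg hn hl
  have hyq : ∀ l ∈ W q, dig g y l = dig g n l := fun l hl => dig_part_mem hg hn hl
  refine ⟨x, y, hsx, hsy, by omega, ?_, ?_, hxp, hyq⟩
  · intro l hl
    obtain ⟨c, hc⟩ := hW.cover l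
    rw [hadd]
    rcases cover3 h1 h2 h3 c with rfl | rfl | rfl
    · exact absurd hc hl
    · rw [hxp l hc, hsy l (not_mem hW h3 hc), add_zero]
    · rw [hyq l hc, hsx l (not_mem hW (Ne.symm h3) hc), zero_add]
  · intro l hl
    rw [hadd, hsx l (not_mem hW h1 hl), hsy l (not_mem hW h2 hl)]

lemma good_split (ha2 : 2 ≤ a) {p : Fin 3} (hp : p ≠ i) {x : ℕ} (hx : Sup g (W p) x) :
    Good (fullSet g W \ {a}) (a + x) := by
  obtain ⟨y1, y2, ⟨c1, h1⟩, ⟨c2, h2⟩, h3⟩ := split_two hg hW ⟨i, ha⟩ ha2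
  rw [mem_AG hg] at h1 h2
  refine ⟨y1, y2, x, mem_B hg (c := c1) h1.2 (by have := h2.1; omega),
    mem_B hg (c := c2) h2.2 (by have := h1.1; omega), mem_B hg hx ?_, by omega⟩
  intro hxa
  rw [hxa] at hx
  exact not_sup hg hW ha hp hx

lemma good_S1 {c c' : Fin 3} (hc : c ≠ i) (hc' : c' ≠ i) {n : ℕ}
    (hn : ∀ j, n % g j ≤ 2 * wt g (W c) j + wt g (W c') j) :
    Good (fullSet g W \ {a}) n := by
  obtain ⟨x, y, z, hx, hy, hz, h⟩ := rep3 hg (W c) (W c) (W c') n
    (fun j => by have := hn j; omega)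
  refine ⟨x, y, z, mem_B hg hx ?_, mem_B hg hy ?_, mem_B hg hz ?_, h⟩
  · intro hxa
    rw [hxa] at hx
    exact not_sup hg hW ha hc hx
  · intro hxa
    rw [hxa] at hy
    exact not_sup hg hW ha hc hy
  · intro hxa
    rw [hxa] at hz
    exact not_sup hg hW ha hc' hz

omit ha in
lemma avoid2 {c2 c3 : Fin 3} (h23 : c2 ≠ c3) {y z l0 : ℕ} (hy : Sup g (W c2) y)
    (hz : Sup g (W c3) z) (h2 : l0 ∉ W c2) (h3 : l0 ∉ W c3) : dig g (y + z) l0 = 0 := by
  rw [dig_add_of_lt hg, hy l0 h2, hz l0 h3]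
  intro j
  have e1 := mod_le_wt hg hy j
  have e2 := mod_le_wt hg hz j
  have e3 := wlt2 hg hW h23 j
  omega

lemma good_S2 {p : Fin 3} (hp : i ≠ p) {n : ℕ}
    (hsplit : ∀ x, Sup g (W p) x → n = a + x → Good (fullSet g W \ {a}) n)
    (hd : ∀ l ∈ W i, dig g n l = dig g a l)
    (hn : ∀ j, n % g j ≤ 2 * wt g (W i) j + wt g (W p) j) :
    Good (fullSet g W \ {a}) n := by
  obtain ⟨q, hq, hpq⟩ := third hp
  obtain ⟨mx, my, hmx, hmy, hnm, h1, h2, h3, h4⟩ := decomp hg hW ha hd hp hq hpq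
  by_cases h0 : my = 0
  · exact hsplit mx hmx (by rw [hnm, h0, add_zero])
  · obtain ⟨l0, hl0q, hl0⟩ := exists_dig hg hmy h0
    have hli : l0 ∉ W i := not_mem hW (Ne.symm hq) hl0q
    have hlp : l0 ∉ W p := not_mem hW (Ne.symm hpq) hl0q
    have hl0' : dig g (mx + my) l0 ≠ 0 := by
      rw [h1 l0 hli, ← h4 l0 hl0q]
      exact hl0
    have key : ∀ u v, Sup g (W i) u → Sup g (W p) v → u + v ≠ mx + my := by
      intro u v hu hv he
      rw [← he] at hl0'
      exact hl0' (avoid2 hg hW hp hu hv hli hlp)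
    obtain ⟨x, y, z, hx, hy, hz, h⟩ := rep3 hg (W i) (W i) (W p) n
      (fun j => by have := hn j; omega)
    refine ⟨x, y, z, mem_B hg hx ?_, mem_B hg hy ?_, mem_B hg hz ?_, h⟩
    · intro hxa
      exact key y z hy hz (by omega)
    · intro hya
      exact key x z hx hz (by omega)
    · intro hza
      rw [hza] at hz
      exact not_sup hg hW ha hp.symm hz

omit ha in
lemma never {c : Fin 3} (hc : c ≠ i)
    (hU : ∀ j, a % g j + g j ≤ 2 * wt g (W c) j + wt g (W i) j + wt g (W i) j + 1) : False := by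
  obtain ⟨q, hq, hcq⟩ := third hc
  obtain ⟨t, ht⟩ := hW.nonempty q
  have h1 := hU (t + 1)
  have h2 := wt_succ_not_mem hg (not_mem hW (Ne.symm hq) ht)
  have h3 := wt_succ_not_mem hg (not_mem hW (Ne.symm hcq) ht)
  have h4 := wlt2 hg hW hc t
  have h5 := gsucc hg t
  have h6 : 2 * g t ≤ D g t * g t := Nat.mul_le_mul_right _ (two_le_D hg t)
  have h7 : wt g (W i) (t + 1) = wt g (W i) t := by assumption
  have h8 : wt g (W c) (t + 1) = wt g (W c) t := by assumption
  omega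

/-- the case of the type `(i, i, i)`, generic part -/
lemma good_D {M : ℕ} (haM : a < g M) {n : ℕ}
    (hsplit : ∀ p, p ≠ i → ∀ x, Sup g (W p) x → n = a + x → Good (fullSet g W \ {a}) n)
    (hd : ∀ l ∈ W i, dig g n l = dig g a l) (hn : ∀ j, n % g j ≤ 3 * wt g (W i) j)
    (hnM : g (M + 1) ≤ n) :
    Good (fullSet g W \ {a}) n ∨
      ((∀ v, dig g a v ≠ 0 → v + 1 ∉ W i ∧ g (v + 1) = 2 * g v) ∧
        ∃ s, M ≤ s ∧ s ∈ W i ∧ s + 1 ∉ W i ∧ g (s + 1) = 2 * g s ∧ n = 3 * a + g (s + 1) ∧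
          ∀ q, q ≠ i → ∃ k, k ∈ W i ∧ k + 1 ∈ W q ∧ dig g (n - a) (k + 1) ≠ 0 ∧
            (k = s ∨ dig g a k ≠ 0)) := by
  obtain ⟨p, q, hp, hq, hpq⟩ := two_others i
  have ha' := (mem_AG hg).1 ha
  obtain ⟨mx, my, hmx, hmy, hnm, h1, h2, h3, h4⟩ := decomp hg hW ha hd hp hq hpq
  by_cases h0x : mx = 0
  · left
    exact hsplit q hq.symm my hmy (by rw [hnm, h0x, zero_add])
  by_cases h0y : my = 0
  · left
    exact hsplit p hp.symm mx hmx (by rw [hnm, h0y, add_zero])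
  obtain ⟨x, y, z, hx, hy, hz, h⟩ := rep3 hg (W i) (W i) (W i) n
    (fun j => by have := hn j; omega)
  by_cases hall : x ≠ a ∧ y ≠ a ∧ z ≠ a
  · left
    exact ⟨x, y, z, mem_B hg hx hall.1, mem_B hg hy hall.2.1, mem_B hg hz hall.2.2, h⟩
  obtain ⟨u, v, hu, hv, huv⟩ : ∃ u v, Sup g (W i) u ∧ Sup g (W i) v ∧ mx + my = u + v := by
    by_cases hxa : x = a
    · exact ⟨y, z, hy, hz, by omega⟩
    by_cases hya : y = a
    · exact ⟨x, z, hx, hz, by omega⟩
    by_cases hza : z = a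
    · exact ⟨x, y, hx, hy, by omega⟩
    exact absurd ⟨hxa, hya, hza⟩ hall
  clear hall h hx hy hz x y z
  set m := mx + my with hm
  have car : ∀ l, l ∉ W i → dig g m l ≠ 0 → dig g m l = 1 ∧ ∃ k, l = k + 1 ∧ k ∈ W i := by
    intro l hl hne
    rw [huv] at hne ⊢
    exact carry hg hu hv hl hne
  have hmc : Sup g (W i)ᶜ m := fun l hl => h2 l (by simpa using hl)
  -- the top position
  have hn1 : 1 ≤ n := by have := gpos hg (M + 1); omega
  obtain ⟨J, hJ1, hJ2, hJ3⟩ := exists_top hg hn1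
  have hMJ : M + 1 ≤ J := by
    by_contra hlt
    have := hg.mono.monotone (show J + 1 ≤ M + 1 by omega)
    omega
  have hJi : J ∉ W i := by
    intro hJ
    apply hJ3
    rw [hd J hJ]
    exact dig_eq_zero_of_le hg haM (by omega)
  have hmJ : dig g m J ≠ 0 := by rw [h1 J hJi]; exact hJ3
  obtain ⟨hmJ1, s, rfl, hs⟩ := car J hJi hmJ
  have hMs : M ≤ s := by omega
  have has : a < g s := haM.trans_le (hg.mono.monotone hMs)
  have hns : n = a + m % g s + g (s + 1) := by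
    have e1 := mod_succ hg n (s + 1)
    have e2 := mod_succ hg n s
    rw [Nat.mod_eq_of_lt hJ2, ← h1 _ hJi, hmJ1] at e1
    rw [hd s hs, dig_eq_zero_of_le hg has le_rfl] at e2
    have e3 : n % g s = a + m % g s := by
      rw [hnm, Nat.add_mod, Nat.mod_eq_of_lt has]
      apply Nat.mod_eq_of_lt
      have f1 := mod_le_wt hg (n := a) (W := W i) ha'.2 s
      have f2 := mod_le_wt hg hmc s
      have f3 := wt_compl hg (W i) s
      rw [Nat.mod_eq_of_lt has] at f1
      omega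
    omega
  set m' := m % g s with hm'
  have hm'lt : m' < g s := Nat.mod_lt _ (gpos hg s)
  have hdm' : ∀ l, l < s → dig g m' l = dig g m l := fun l hl => dig_mod hg hl
  have fact : ∀ l, dig g m' l ≠ 0 →
      l < s ∧ l ∉ W i ∧ dig g m' l = 1 ∧ ∃ k, l = k + 1 ∧ k ∈ W i := by
    intro l hl
    have e1 : l < s := by
      by_contra hcon
      exact hl (dig_eq_zero_of_le hg hm'lt (by omega))
    have e2 : l ∉ W i := by
      intro hli
      apply hl
      rw [hdm' l e1]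
      exact h2 l hli
    have e3 := car l e2 (by rw [← hdm' l e1]; exact hl)
    exact ⟨e1, e2, by rw [hdm' l e1]; exact e3.1, e3.2⟩
  have hle1 : ∀ l, dig g m' l ≤ 1 := by
    intro l
    by_cases h : dig g m' l = 0
    · omega
    · exact (fact l h).2.2.1.le
  have hx3 : ∀ j, dig g m' (j + 1) < D g j := by
    intro j
    have := hle1 (j + 1)
    have := two_le_D hg j
    omega
  have hx2 : ∀ j, (D g j - 1) * dig g m' (j + 1) < D g j := by
    intro j
    have e1 := hle1 (j + 1)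
    have e2 := two_le_D hg j
    have e3 : (D g j - 1) * dig g m' (j + 1) ≤ (D g j - 1) * 1 := Nat.mul_le_mul_left _ e1
    omega
  set r3 := val g (fun l => dig g m' (l + 1)) s with hr3
  set r2 := val g (fun l => (D g l - 1) * dig g m' (l + 1)) s with hr2
  have hr3d : ∀ l, dig g r3 l = if l < s then dig g m' (l + 1) else 0 :=
    fun l => dig_val' hg hx3 l s
  have hr2d : ∀ l, dig g r2 l = if l < s then (D g l - 1) * dig g m' (l + 1) else 0 :=
    fun l => dig_val' hg hx2 l s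
  have hshift : ∀ l, l ∉ W i → dig g m' (l + 1) = 0 := by
    intro l hl
    by_contra hne
    obtain ⟨-, -, -, k, hk, hk'⟩ := fact _ hne
    have : l = k := by omega
    exact hl (this ▸ hk')
  have hr3s : Sup g (W i) r3 := by
    intro l hl
    rw [hr3d, hshift l hl]
    simp
  have hr2s : Sup g (W i) r2 := by
    intro l hl
    rw [hr2d, hshift l hl]
    simp
  have hr3lt : r3 < g s := val_lt hg hx3 s
  have hr2lt : r2 < g s := val_lt hg hx2 s
  have hsumr : r2 + r3 = m' := by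
    have e1 : m' = val g (dig g m') (s + 1) :=
      eq_val hg (hm'lt.trans (hg.mono (Nat.lt_succ_self s)))
    have e2 : dig g m' 0 = 0 := by
      by_contra hne
      obtain ⟨-, -, -, k, hk, -⟩ := fact _ hne
      omega
    rw [e1, hr2, hr3]
    unfold val
    rw [sum_range_succ' (fun j => dig g m' j * g j) s, e2, zero_mul, add_zero,
      ← Finset.sum_add_distrib]
    apply sum_congr rfl
    intro l _
    show (D g l - 1) * dig g m' (l + 1) * g l + dig g m' (l + 1) * g l =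
      dig g m' (l + 1) * g (l + 1)
    rw [gsucc hg l]
    have e3 := two_le_D hg l
    obtain ⟨e, he⟩ : ∃ e, D g l = e + 1 := ⟨D g l - 1, by omega⟩
    rw [he, Nat.add_sub_cancel]
    ring
  have hgs := gsucc hg s
  have hDs := two_le_D hg s
  have hgspos := gpos hg s
  have hadd : ∀ (r y : ℕ), Sup g (W i) r → r < g s → y < D g s → Sup g (W i) (r + y * g s) :=
    fun r y hr hrs hy => sup_add hg hrs (Dvd.intro_left _ rfl) hr (sup_single hg hs hy)
  have hs1 : Sup g (W i) (a + 1 * g s) := hadd a 1 ha'.2 has (by omega)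
  have hs2 : Sup g (W i) (r2 + 1 * g s) := hadd r2 1 hr2s hr2lt (by omega)
  have hs3 : Sup g (W i) (r3 + 1 * g s) := hadd r3 1 hr3s hr3lt (by omega)
  by_cases hD3 : 3 ≤ D g s
  · left
    have hs3' : Sup g (W i) (r3 + (D g s - 2) * g s) := hadd r3 _ hr3s hr3lt (by omega)
    have e1 : 1 * g s ≤ (D g s - 2) * g s := Nat.mul_le_mul_right _ (by omega)
    have e2 : (D g s - 2) * g s + 2 * g s = D g s * g s := by
      obtain ⟨e, he⟩ : ∃ e, D g s = e + 2 := ⟨D g s - 2, by omega⟩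
      rw [he, Nat.add_sub_cancel]; ring
    exact ⟨_, _, _, mem_B hg hs1 (by omega), mem_B hg hs2 (by omega),
      mem_B hg hs3' (by omega), by omega⟩
  have hD2 : D g s = 2 := by omega
  rw [hD2] at hgs
  by_cases hr3a : r3 ≠ a
  · left
    exact ⟨_, _, _, mem_B hg hs1 (by omega), mem_B hg hs2 (by omega),
      mem_B hg hr3s hr3a, by omega⟩
  by_cases hr2a : r2 ≠ a
  · left
    exact ⟨_, _, _, mem_B hg hs1 (by omega), mem_B hg hr2s hr2a,
      mem_B hg hs3 (by omega), by omega⟩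
  right
  push Not at hr3a hr2a
  have hnma : n - a = m := by omega
  refine ⟨?_, s, hMs, hs, hJi, hgs, by omega, ?_⟩
  · intro v hva
    have e1 := hr3d v
    have e2 := hr2d v
    rw [hr3a] at e1
    rw [hr2a] at e2
    have hvs : v < s := by
      by_contra hcon
      rw [if_neg hcon] at e1
      exact hva e1
    rw [if_pos hvs] at e1 e2
    obtain ⟨f1, f2, f3, -⟩ := fact (v + 1) (by omega)
    refine ⟨f2, ?_⟩
    rw [f3, mul_one] at e2
    rw [gsucc hg v]
    have : D g v = 2 := by omega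
    rw [this]
  · intro q' hq'
    have hex : ∃ l ∈ W q', dig g m l ≠ 0 := by
      rcases cover3 hp hq hpq q' with h | h | h
      · exact absurd h hq'
      · subst h
        obtain ⟨l, hl, hl'⟩ := exists_dig hg hmx h0x
        exact ⟨l, hl, by rw [h1 l (not_mem hW hp.symm hl), ← h3 l hl]; exact hl'⟩
      · subst h
        obtain ⟨l, hl, hl'⟩ := exists_dig hg hmy h0y
        exact ⟨l, hl, by rw [h1 l (not_mem hW hq.symm hl), ← h4 l hl]; exact hl'⟩
    obtain ⟨l, hl, hl'⟩ := hex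
    have hli : l ∉ W i := not_mem hW hq' hl
    obtain ⟨-, k, rfl, hk⟩ := car l hli hl'
    refine ⟨k, hk, hl, by rw [hnma]; exact hl', ?_⟩
    by_cases hks : k = s
    · exact Or.inl hks
    right
    have hk1 : k + 1 ≤ s + 1 := by
      by_contra hcon
      apply hl'
      rw [h1 _ hli]
      exact dig_eq_zero_of_le hg hJ2 (by omega)
    have hk2 : k + 1 ≠ s := by
      intro he
      rw [he] at hli
      exact hli hs
    have hk3 : k + 1 < s := by omega
    have e1 := hr3d k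
    rw [hr3a, if_pos (by omega), hdm' _ hk3] at e1
    rw [e1]
    exact hl'

end

end Pool.Agent.Lib_MP_fbe023_h3
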